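import Pool.Agent.K7.H91.GB.Div

set_option autoImplicit false

/-!
# Codes for the runs of large greatest common divisors

A descent of `N` is described by the greatest common divisors `g n` and the defects `d n`. The times `n` at which
`g n` is large, with `d (n - 1)` and `g n`, form a list which belongs to a small explicit set of lists (`codes`).
-/

namespace Pool.Agent.K7.H91.GB

open Finset

/-- the facts about the gcds `g` and the defects `d` up to the time `T` which are used -/
structure Desc (N T : ℕ) (g d : ℕ → ℕ) : Prop where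
  d1 : d 1 = 0
  pos : ∀ n, 1 ≤ n → n < T → 1 ≤ g (n + 1)
  step : ∀ n, 1 ≤ n → n < T → d (n + 1) = d n + (g (n + 1) - 1)
  small : ∀ n, 1 ≤ n → n < T → g (n + 1) ≤ T ∨
    (g (n + 1) ∣ (n + 1) + 2 * d n ∧ g (n + 1) ∣ N + d n ∧ g (n + 1) ∣ 2 * N - (n + 1))

/-- the possible continuations of a list of large gcds (the last one is the head of the list) -/
def ext (T Dm E w : ℕ) : List (ℕ × ℕ × ℕ) → Finset (ℕ × ℕ × ℕ)
  | [] => (range (T + 1) ×ˢ range Dm).biUnion fun x =>
      (fewDiv w (x.1 + 2 * x.2)).image fun G => (x.1, x.2, G)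
  | (_, D, G) :: _ => (range (T + 1) ×ˢ range E).biUnion fun x =>
      if D + (G - 1) + x.2 < Dm then
        (fewDiv w (x.1 + 2 * (D + (G - 1) + x.2))).image fun G' => (x.1, D + (G - 1) + x.2, G')
      else ∅

/-- the lists of length `J` -/
def codes (T Dm E w : ℕ) : ℕ → Finset (List (ℕ × ℕ × ℕ))
  | 0 => {[]}
  | J + 1 => (codes T Dm E w J).biUnion fun c => (ext T Dm E w c).image fun j => j :: c

lemma length_of_mem_codes {T Dm E w J : ℕ} : ∀ {c : List (ℕ × ℕ × ℕ)}, c ∈ codes T Dm E w J → c.length = J := by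
  induction J with
  | zero => intro c hc; simp only [codes, mem_singleton] at hc; simp [hc]
  | succ J ih =>
    intro c hc
    simp only [codes, mem_biUnion, mem_image] at hc
    obtain ⟨a, ha, j, _, rfl⟩ := hc
    simp [ih ha]

lemma card_ext_nil {T Dm E w B : ℕ} (hB : T + 2 * Dm < 2 ^ B) :
    (ext T Dm E w []).card ≤ (T + 1) * Dm * (B * B + 1) ^ w := by
  unfold ext
  refine card_biUnion_le.trans ?_
  have h : ∀ x ∈ range (T + 1) ×ˢ range Dm,
      ((fewDiv w (x.1 + 2 * x.2)).image fun G => (x.1, x.2, G)).card ≤ (B * B + 1) ^ w := by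
    intro x hx
    rw [mem_product, mem_range, mem_range] at hx
    exact card_image_le.trans (card_fewDiv w _ B (by omega))
  refine (sum_le_sum h).trans ?_
  rw [sum_const, card_product, card_range, card_range, smul_eq_mul]

lemma card_ext_cons {T Dm E w B : ℕ} (hB : T + 2 * Dm < 2 ^ B) (j : ℕ × ℕ × ℕ) (l : List (ℕ × ℕ × ℕ)) :
    (ext T Dm E w (j :: l)).card ≤ (T + 1) * E * (B * B + 1) ^ w := by
  obtain ⟨n, D, G⟩ := j
  unfold ext
  refine card_biUnion_le.trans ?_
  have h : ∀ x ∈ range (T + 1) ×ˢ range E,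
      (if D + (G - 1) + x.2 < Dm then
        (fewDiv w (x.1 + 2 * (D + (G - 1) + x.2))).image fun G' => (x.1, D + (G - 1) + x.2, G')
      else ∅).card ≤ (B * B + 1) ^ w := by
    intro x hx
    rw [mem_product, mem_range, mem_range] at hx
    split_ifs with h1
    · exact card_image_le.trans (card_fewDiv w _ B (by omega))
    · simp
  refine (sum_le_sum h).trans ?_
  rw [sum_const, card_product, card_range, card_range, smul_eq_mul]

lemma card_codes {T Dm E w B : ℕ} (hB : T + 2 * Dm < 2 ^ B) (J : ℕ) :
    (codes T Dm E w (J + 1)).card ≤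
      ((T + 1) * Dm * (B * B + 1) ^ w) * ((T + 1) * E * (B * B + 1) ^ w) ^ J := by
  induction J with
  | zero =>
    show ((codes T Dm E w 0).biUnion fun c => (ext T Dm E w c).image fun j => j :: c).card ≤ _
    rw [pow_zero, mul_one, codes, singleton_biUnion]
    exact card_image_le.trans (card_ext_nil hB)
  | succ J ih =>
    show ((codes T Dm E w (J + 1)).biUnion fun c => (ext T Dm E w c).image fun j => j :: c).card ≤ _
    refine card_biUnion_le.trans ?_
    have h : ∀ c ∈ codes T Dm E w (J + 1),
        ((ext T Dm E w c).image fun j => j :: c).card ≤ (T + 1) * E * (B * B + 1) ^ w := by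
      intro c hc
      have hl := length_of_mem_codes hc
      refine card_image_le.trans ?_
      cases c with
      | nil => simp at hl
      | cons j l => exact card_ext_cons hB j l
    refine (sum_le_sum h).trans ?_
    rw [sum_const, smul_eq_mul]
    exact (Nat.mul_le_mul_right _ ih).trans (le_of_eq (by rw [pow_succ]; ring))

/-- the list of the `(n, d (n - 1), g n)` with `Z ≤ g n`, `s < n ≤ s + i`, the last one first -/
def run (g d : ℕ → ℕ) (Z s : ℕ) : ℕ → List (ℕ × ℕ × ℕ)
  | 0 => []
  | i + 1 => if Z ≤ g (s + i + 1) then (s + i + 1, d (s + i), g (s + i + 1)) :: run g d Z s i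
      else run g d Z s i

lemma run_succ_pos {g d : ℕ → ℕ} {Z s i : ℕ} (h : Z ≤ g (s + i + 1)) :
    run g d Z s (i + 1) = (s + i + 1, d (s + i), g (s + i + 1)) :: run g d Z s i := by
  rw [run, if_pos h]

lemma run_succ_neg {g d : ℕ → ℕ} {Z s i : ℕ} (h : ¬ Z ≤ g (s + i + 1)) :
    run g d Z s (i + 1) = run g d Z s i := by
  rw [run, if_neg h]

lemma mem_run {g d : ℕ → ℕ} {Z s : ℕ} {i : ℕ} {j : ℕ × ℕ × ℕ} (h : j ∈ run g d Z s i) :
    ∃ r, r < i ∧ j = (s + r + 1, d (s + r), g (s + r + 1)) ∧ Z ≤ g (s + r + 1) := by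
  induction i with
  | zero => simp [run] at h
  | succ i ih =>
    by_cases hZ : Z ≤ g (s + i + 1)
    · rw [run_succ_pos hZ, List.mem_cons] at h
      rcases h with h | h
      · exact ⟨i, Nat.lt_succ_self i, h, hZ⟩
      · obtain ⟨r, h1, h2⟩ := ih h
        exact ⟨r, by omega, h2⟩
    · rw [run_succ_neg hZ] at h
      obtain ⟨r, h1, h2⟩ := ih h
      exact ⟨r, by omega, h2⟩

/-- the runs belong to the set of codes -/
lemma run_mem_codes {N T : ℕ} {g d : ℕ → ℕ} (hD : Desc N T g d) {Z Dm E w s : ℕ} (hs : 1 ≤ s)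
    (hTZ : T < Z) (hE : T * Z ≤ E)
    (i : ℕ) (hi : s + i ≤ T)
    (hom : ∀ n, s ≤ n → n < s + i → T < g (n + 1) → (g (n + 1)).primeFactors.card ≤ w)
    (hDm : ∀ n, s ≤ n → n < s + i → d n < Dm) :
    run g d Z s i ∈ codes T Dm E w (run g d Z s i).length ∧
      ∀ n D G l, run g d Z s i = (n, D, G) :: l →
        D + (G - 1) ≤ d (s + i) ∧ ∃ r, r + n = s + i ∧ d (s + i) ≤ D + (G - 1) + r * (Z - 1) := by
  induction i with
  | zero =>
    refine ⟨by simp [run, codes], ?_⟩
    intro n D G l h
    simp [run] at h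
  | succ i ih =>
    obtain ⟨ih1, ih2⟩ := ih (by omega) (fun n h1 h2 => hom n h1 (by omega))
      (fun n h1 h2 => hDm n h1 (by omega))
    have hst := hD.step (s + i) (by omega) (by omega)
    have hpos := hD.pos (s + i) (by omega) (by omega)
    by_cases hZ : Z ≤ g (s + i + 1)
    · rw [run_succ_pos hZ]
      constructor
      · rw [List.length_cons, codes, mem_biUnion]
        refine ⟨run g d Z s i, ih1, ?_⟩
        rw [mem_image]
        refine ⟨_, ?_, rfl⟩
        have hdm := hDm (s + i) (by omega) (by omega)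
        have hsm := hD.small (s + i) (by omega) (by omega)
        have hsm2 : g (s + i + 1) ∣ (s + i + 1) + 2 * d (s + i) := by
          rcases hsm with h | h
          · omega
          · exact h.1
        have hfew : g (s + i + 1) ∈ fewDiv w ((s + i + 1) + 2 * d (s + i)) :=
          mem_fewDiv.2 ⟨⟨hsm2, by omega⟩, hom (s + i) (by omega) (by omega) (by omega)⟩
        rcases hr : run g d Z s i with _ | ⟨⟨n', D', G'⟩, l'⟩
        · unfold ext
          rw [mem_biUnion]
          refine ⟨(s + i + 1, d (s + i)), ?_, ?_⟩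
          · rw [mem_product, mem_range, mem_range]
            exact ⟨by show s + i + 1 < T + 1; omega, hdm⟩
          · rw [mem_image]
            exact ⟨g (s + i + 1), hfew, rfl⟩
        · obtain ⟨h1, r, h2, h3⟩ := ih2 n' D' G' l' hr
          unfold ext
          rw [mem_biUnion]
          refine ⟨(s + i + 1, d (s + i) - (D' + (G' - 1))), ?_, ?_⟩
          · rw [mem_product, mem_range, mem_range]
            refine ⟨by show s + i + 1 < T + 1; omega, ?_⟩
            show d (s + i) - (D' + (G' - 1)) < E
            have h4 : r * (Z - 1) < T * Z := by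
              have hrT : r ≤ T := by omega
              calc r * (Z - 1) ≤ T * (Z - 1) := Nat.mul_le_mul_right _ hrT
                _ < T * Z := Nat.mul_lt_mul_of_pos_left (by omega) (by omega)
            omega
          · have h5 : D' + (G' - 1) + (d (s + i) - (D' + (G' - 1))) = d (s + i) := by omega
            show (s + i + 1, d (s + i), g (s + i + 1)) ∈
              (if D' + (G' - 1) + (d (s + i) - (D' + (G' - 1))) < Dm then
                (fewDiv w (s + i + 1 + 2 * (D' + (G' - 1) + (d (s + i) - (D' + (G' - 1)))))).image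
                  fun G'' => (s + i + 1, D' + (G' - 1) + (d (s + i) - (D' + (G' - 1))), G'')
              else ∅)
            rw [h5, if_pos hdm, mem_image]
            exact ⟨g (s + i + 1), hfew, rfl⟩
      · intro n D G l h
        rw [List.cons.injEq, Prod.mk.injEq, Prod.mk.injEq] at h
        obtain ⟨⟨rfl, rfl, rfl⟩, rfl⟩ := h
        have h6 : s + (i + 1) = s + i + 1 := by omega
        rw [h6, hst]
        exact ⟨le_rfl, 0, by omega, by omega⟩
    · rw [run_succ_neg hZ]
      refine ⟨ih1, ?_⟩
      intro n D G l h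
      obtain ⟨h1, r, h2, h3⟩ := ih2 n D G l h
      have h6 : s + (i + 1) = s + i + 1 := by omega
      rw [h6, hst]
      refine ⟨by omega, r + 1, by omega, ?_⟩
      have h7 : g (s + i + 1) - 1 ≤ Z - 1 := by omega
      calc d (s + i) + (g (s + i + 1) - 1) ≤ (D + (G - 1) + r * (Z - 1)) + (Z - 1) := by omega
        _ = D + (G - 1) + (r + 1) * (Z - 1) := by ring

/-- the gcds of a run have small common divisors -/
lemma run_pairwise {N T : ℕ} {g d : ℕ → ℕ} (hD : Desc N T g d) {Z s : ℕ} (hs : 1 ≤ s)
    (hTZ : T < Z) (hN : T < N) (i : ℕ) (hi : s + i ≤ T) :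
    ((run g d Z s i).map (fun j => j.2.2)).Pairwise (fun x y => Nat.gcd x y ≤ T) := by
  induction i with
  | zero => simp [run]
  | succ i ih =>
    have ih := ih (by omega)
    by_cases hZ : Z ≤ g (s + i + 1)
    · rw [run_succ_pos hZ, List.map_cons, List.pairwise_cons]
      refine ⟨?_, ih⟩
      intro y hy
      rw [List.mem_map] at hy
      obtain ⟨j, hj, rfl⟩ := hy
      obtain ⟨r, hr, rfl, hZr⟩ := mem_run hj
      show Nat.gcd (g (s + i + 1)) (g (s + r + 1)) ≤ T
      have h1 : g (s + i + 1) ∣ 2 * N - (s + i + 1) := by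
        rcases hD.small (s + i) (by omega) (by omega) with h | h
        · omega
        · exact h.2.2
      have h2 : g (s + r + 1) ∣ 2 * N - (s + r + 1) := by
        rcases hD.small (s + r) (by omega) (by omega) with h | h
        · omega
        · exact h.2.2
      have h3 : Nat.gcd (g (s + i + 1)) (g (s + r + 1)) ∣
          (2 * N - (s + r + 1)) - (2 * N - (s + i + 1)) :=
        Nat.dvd_sub ((Nat.gcd_dvd_right _ _).trans h2) ((Nat.gcd_dvd_left _ _).trans h1)
      have h4 : (2 * N - (s + r + 1)) - (2 * N - (s + i + 1)) = i - r := by omega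
      rw [h4] at h3
      exact (Nat.le_of_dvd (by omega) h3).trans (by omega)
    · rw [run_succ_neg hZ]
      exact ih

end Pool.Agent.K7.H91.GB
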