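import Pool.Agent.K7.H91.GB.Union

set_option autoImplicit false

/-!
# The combinatorial part: too many large greatest common divisors
-/

namespace Pool.Agent.K7.H91.GB

open Finset

lemma cnt_add (g : ℕ → ℕ) (q k : ℕ) {s t u : ℕ} (h1 : s ≤ t) (h2 : t ≤ u) :
    cnt g q k s u = cnt g q k s t + cnt g q k t u := by
  unfold cnt
  rw [← card_union_of_disjoint]
  · congr 1
    rw [← filter_union]
    congr 1
    ext x; simp only [mem_Ioc, mem_union]; omega
  · rw [disjoint_left]
    intro x hx hy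
    rw [mem_filter, mem_Ioc] at hx hy
    omega

lemma cnt_anti (g : ℕ → ℕ) (q : ℕ) {k m : ℕ} (h : k ≤ m) (s t : ℕ) :
    cnt g q m s t ≤ cnt g q k s t := by
  unfold cnt
  apply card_le_card
  intro x hx
  rw [mem_filter] at hx ⊢
  exact ⟨hx.1, (Nat.pow_le_pow_right (by norm_num) (Nat.mul_le_mul_left _ h)).trans hx.2⟩

lemma cnt_le (g : ℕ → ℕ) (q k s t : ℕ) : cnt g q k s t ≤ t - s := by
  unfold cnt
  refine (card_filter_le _ _).trans ?_
  rw [Nat.card_Ioc]

lemma one_le_cnt {g : ℕ → ℕ} {q k s t n : ℕ} (h1 : s < n) (h2 : n ≤ t) (h3 : 2 ^ (q * k) ≤ g n) :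
    1 ≤ cnt g q k s t := by
  unfold cnt
  rw [Nat.one_le_iff_ne_zero, ← Nat.pos_iff_ne_zero, card_pos]
  exact ⟨n, by rw [mem_filter, mem_Ioc]; exact ⟨⟨h1, h2⟩, h3⟩⟩

/-- there is a time at which the count is exactly `M` -/
lemma exists_cnt_eq (g : ℕ → ℕ) (q k : ℕ) {s u M : ℕ} (hsu : s ≤ u) (hM : M ≤ cnt g q k s u) :
    ∃ t, s ≤ t ∧ t ≤ u ∧ cnt g q k s t = M := by
  obtain ⟨i, rfl⟩ := Nat.exists_eq_add_of_le hsu
  induction i with
  | zero =>
    refine ⟨s, le_rfl, by omega, ?_⟩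
    rw [add_zero, cnt_self] at hM
    rw [cnt_self]; omega
  | succ i ih =>
    by_cases h : M ≤ cnt g q k s (s + i)
    · obtain ⟨t, h1, h2, h3⟩ := ih (by omega) h
      exact ⟨t, h1, by omega, h3⟩
    · refine ⟨s + (i + 1), by omega, le_rfl, ?_⟩
      rw [show s + (i + 1) = s + i + 1 by omega] at hM ⊢
      rw [cnt_succ] at hM ⊢
      split_ifs at hM ⊢ <;> omega

/-- blocks with `M` large gcds contain `4 M` gcds of the next level -/
lemma partition {g : ℕ → ℕ} {q k M u : ℕ}
    (h : ∀ s t, 1 ≤ s → s ≤ t → t ≤ u → cnt g q (k + 1) s t = M → 4 * M ≤ cnt g q k s t)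
    (j : ℕ) : ∀ s, 1 ≤ s → s ≤ u → j * M ≤ cnt g q (k + 1) s u → 4 * M * j ≤ cnt g q k s u := by
  induction j with
  | zero => intro s _ _ _; simp
  | succ j ih =>
    intro s hs hsu hj
    have h1 : M ≤ cnt g q (k + 1) s u := le_trans (by nlinarith) hj
    obtain ⟨t, h2, h3, h4⟩ := exists_cnt_eq g q (k + 1) hsu h1
    have h5 := h s t hs h2 h3 h4
    have h6 := cnt_add g q (k + 1) h2 h3
    have h7 := cnt_add g q k h2 h3
    have h8 := ih t (hs.trans h2) h3 (by
      have : (j + 1) * M = j * M + M := by ring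
      omega)
    rw [h7]
    have : 4 * M * (j + 1) = 4 * M * j + 4 * M := by ring
    omega

/-- growth of the defect without large gcds -/
lemma growth {N T : ℕ} {g d : ℕ → ℕ} (hD : Desc N T g d) {u Z : ℕ} (hu : 1 ≤ u) (i : ℕ)
    (hi : u + i ≤ T) (h : ∀ n, u < n → n ≤ u + i → g n < Z) : d (u + i) ≤ d u + i * Z := by
  induction i with
  | zero => simp
  | succ i ih =>
    have h1 := ih (by omega) (fun n h1 h2 => h n h1 (by omega))
    have h2 := hD.step (u + i) (by omega) (by omega)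
    have h3 := h (u + i + 1) (by omega) (by omega)
    rw [show u + (i + 1) = u + i + 1 by omega, h2]
    have : (i + 1) * Z = i * Z + Z := by ring
    omega

lemma phase {N T : ℕ} {g d : ℕ → ℕ} (hD : Desc N T g d) {q m u v : ℕ} (hq : 2 * T + 3 < 2 ^ q)
    (hu2 : 1 ≤ u) (hu : d u < 2 ^ (q * m)) (huv : u + 1 ≤ v) (hv : v ≤ T)
    (hdv : 2 ^ (q * (m + 1)) ≤ d v) : ∃ n, u + 1 < n ∧ n ≤ v ∧ 2 ^ (q * m) ≤ g n := by
  by_contra hcon
  push Not at hcon
  have h1 : d (u + 1) ≤ 3 * 2 ^ (q * m) + T := by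
    have h2 := hD.step u hu2 (by omega)
    rcases hD.small u hu2 (by omega) with h3 | h3
    · omega
    · have h4 := Nat.le_of_dvd (by omega) h3.1
      omega
  obtain ⟨i, rfl⟩ := Nat.exists_eq_add_of_le huv
  have h5 := growth hD (u := u + 1) (Z := 2 ^ (q * m)) (by omega) i hv
    (fun n h1 h2 => hcon n h1 h2)
  have h6 : i * 2 ^ (q * m) ≤ T * 2 ^ (q * m) := Nat.mul_le_mul_right _ (by omega)
  have h7 : T ≤ T * 2 ^ (q * m) := Nat.le_mul_of_pos_right _ (by positivity)
  have h8 : 2 ^ (q * (m + 1)) = 2 ^ q * 2 ^ (q * m) := by rw [← pow_add]; congr 1; ring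
  have h9 : (2 * T + 3) * 2 ^ (q * m) < 2 ^ q * 2 ^ (q * m) :=
    Nat.mul_lt_mul_of_pos_right hq (by positivity)
  have h10 : (2 * T + 3) * 2 ^ (q * m) = T * 2 ^ (q * m) + T * 2 ^ (q * m) + 3 * 2 ^ (q * m) := by ring
  omega

/-- the first time at which the defect is at least `2 ^ (q m)` -/
lemma exists_first {N T : ℕ} {g d : ℕ → ℕ} (hD : Desc N T g d) {q m v : ℕ}
    (hv1 : 1 ≤ v) (hdv : 2 ^ (q * m) ≤ d v) :
    ∃ u, 1 ≤ u ∧ u + 1 ≤ v ∧ (∀ n, 1 ≤ n → n ≤ u → d n < 2 ^ (q * m)) ∧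
      2 ^ (q * m) ≤ d (u + 1) := by
  classical
  have hex : ∃ n, 1 ≤ n ∧ 2 ^ (q * m) ≤ d n := ⟨v, hv1, hdv⟩
  have h1 := Nat.find_spec hex
  have h2 := fun n => Nat.find_min (H := hex) (m := n)
  have h3 : Nat.find hex ≤ v := Nat.find_le ⟨hv1, hdv⟩
  set t := Nat.find hex
  have h4 : t ≠ 1 := by
    intro h
    rw [h, hD.d1] at h1
    have := Nat.pos_of_ne_zero (pow_ne_zero (q * m) (two_ne_zero))
    omega
  refine ⟨t - 1, by omega, by omega, ?_, ?_⟩
  · intro n hn1 hn2
    have := h2 n (by omega)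
    push Not at this
    exact this hn1
  · rw [Nat.sub_add_cancel h1.1]
    exact h1.2

/-- every level has large gcds -/
lemma levels {N T : ℕ} {g d : ℕ → ℕ} (hD : Desc N T g d) {q m : ℕ} (hq : 2 * T + 3 < 2 ^ q)
    (j : ℕ) : ∀ v, 1 ≤ v → v ≤ T → 2 ^ (q * (m + j)) ≤ d v → j ≤ cnt g q m 1 v := by
  induction j with
  | zero => intro v _ _ _; omega
  | succ j ih =>
    intro v hv1 hvT hdv
    have hdv' : 2 ^ (q * (m + j)) ≤ d v :=
      (Nat.pow_le_pow_right (by norm_num) (Nat.mul_le_mul_left _ (by omega))).trans hdv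
    obtain ⟨u, hu1, huv, hlt, hge⟩ := exists_first hD hv1 hdv'
    have h1 := ih (u + 1) (by omega) (by omega) hge
    obtain ⟨n, hn1, hn2, hn3⟩ := phase hD hq hu1 (hlt u hu1 le_rfl) huv hvT
      (by rwa [show m + (j + 1) = m + j + 1 by omega] at hdv)
    have h2 : 2 ^ (q * m) ≤ g n :=
      (Nat.pow_le_pow_right (by norm_num) (Nat.mul_le_mul_left _ (by omega))).trans hn3
    have h3 := one_le_cnt hn1 hn2 h2
    have h4 := cnt_add g q m (show 1 ≤ u + 1 by omega) huv
    omega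

/-- the contradiction -/
theorem contra {N T : ℕ} {g d : ℕ → ℕ} (hD : Desc N T g d) {q K v : ℕ} (hq : 2 * T + 3 < 2 ^ q)
    (hK : 8 ≤ K) (hv1 : 1 ≤ v) (hvT : v ≤ T) (hdv : 2 ^ (q * K) ≤ d v) (hTK : T < 2 ^ (K - 1))
    (h : ∀ k s t, 1 ≤ k → k ≤ K → 1 ≤ s → s ≤ t → t ≤ v → cnt g q k s t ≤ 8 * K →
      8 * ∑ m ∈ Ioc k K, cnt g q m s t < cnt g q k s t + 8 * (K + 1 - k)) : False := by
  -- the count at the level `K - 6 - j`
  have key : ∀ j, j + 7 ≤ K → 64 * 2 ^ j ≤ cnt g q (K - 6 - j) 1 v := by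
    intro j
    induction j with
    | zero =>
      intro _
      rw [pow_zero, mul_one, Nat.sub_zero]
      by_cases hc : cnt g q (K - 6) 1 v ≤ 8 * K
      · have h1 := h (K - 6) 1 v (by omega) (by omega) le_rfl hv1 le_rfl hc
        have h2 : ∀ j, 1 ≤ j → j ≤ 5 → j ≤ cnt g q (K - j) 1 v := by
          intro j hj1 hj2
          exact levels hD hq j v hv1 hvT (by rwa [Nat.sub_add_cancel (by omega)])
        have h3 : ∑ m ∈ Ioc (K - 6) K, cnt g q m 1 v ≥
            cnt g q (K - 5) 1 v + cnt g q (K - 4) 1 v + cnt g q (K - 3) 1 v + cnt g q (K - 2) 1 v +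
              cnt g q (K - 1) 1 v := by
          have hsub : ({K - 5, K - 4, K - 3, K - 2, K - 1} : Finset ℕ) ⊆ Ioc (K - 6) K := by
            intro x hx
            simp only [mem_insert, mem_singleton] at hx
            rw [mem_Ioc]
            omega
          refine le_trans (le_of_eq ?_) (sum_le_sum_of_subset hsub)
          rw [sum_insert, sum_insert, sum_insert, sum_insert, sum_singleton]
          · ring
          all_goals simp only [mem_insert, mem_singleton]; omega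
        have a1 := h2 1 (by omega) (by omega)
        have a2 := h2 2 (by omega) (by omega)
        have a3 := h2 3 (by omega) (by omega)
        have a4 := h2 4 (by omega) (by omega)
        have a5 := h2 5 (by omega) (by omega)
        omega
      · omega
    | succ j ih =>
      intro hj
      have h1 := ih (by omega)
      set k := K - 6 - (j + 1) with hk
      have hk1 : K - 6 - j = k + 1 := by omega
      rw [hk1] at h1
      set M := 2 * (K + 1 - k) with hM
      have hMj : M ≤ 64 * 2 ^ j := by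
        have h2 : j < 2 ^ j := Nat.lt_two_pow_self
        omega
      have hMpos : 0 < M := by omega
      have hblock : ∀ s t, 1 ≤ s → s ≤ t → t ≤ v → cnt g q (k + 1) s t = M → 4 * M ≤ cnt g q k s t := by
        intro s t hs hst htv hcnt
        by_cases hc : cnt g q k s t ≤ 8 * K
        · have h2 := h k s t (by omega) (by omega) hs hst htv hc
          have h3 : cnt g q (k + 1) s t ≤ ∑ m ∈ Ioc k K, cnt g q m s t :=
            single_le_sum (f := fun m => cnt g q m s t) (fun _ _ => Nat.zero_le _)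
              (by rw [mem_Ioc]; omega)
          omega
        · omega
      have h4 := partition hblock (cnt g q (k + 1) 1 v / M) 1 le_rfl hv1 (Nat.div_mul_le_self _ _)
      have h5 := Nat.div_add_mod (cnt g q (k + 1) 1 v) M
      have h6 := Nat.mod_lt (cnt g q (k + 1) 1 v) hMpos
      set A := cnt g q (k + 1) 1 v
      have h7 : 1 ≤ A / M := (Nat.one_le_div_iff hMpos).2 (hMj.trans h1)
      have h8 : A ≤ 2 * (M * (A / M)) := by
        have : M ≤ M * (A / M) := Nat.le_mul_of_pos_right _ h7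
        omega
      have h9 : 4 * M * (A / M) = 2 * (2 * (M * (A / M))) := by ring
      rw [pow_succ]
      omega
  have h1 := key (K - 7) (by omega)
  rw [show K - 6 - (K - 7) = 1 by omega] at h1
  have h2 := cnt_le g q 1 1 v
  have h3 : 64 * 2 ^ (K - 7) = 2 ^ (K - 1) := by
    rw [show (64 : ℕ) = 2 ^ 6 by norm_num, ← pow_add]; congr 1; omega
  omega

end Pool.Agent.K7.H91.GB
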