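import Pool.Agent.K7.H91.GB.Rec

set_option autoImplicit false

/-!
# The exceptional numbers
-/

namespace Pool.Agent.K7.H91.GB

open Finset

/-- the parameters: `T = 2 ^ L`, levels `2 ^ (q k)`, `k ≤ K` -/
def Th (L : ℕ) : ℕ := 9 * L * L + 18 * L + 1
def qq (L : ℕ) : ℕ := 8 * Th L
def KK (L : ℕ) : ℕ := L + 2
def RR (L : ℕ) : ℕ := 9 * qq L * KK L * KK L
def PP (L k J : ℕ) : ℕ := 2 ^ (qq L * k * J + Th L * J + qq L * (KK L + 1 - k))
def BB (L : ℕ) : ℕ := qq L * KK L + 2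

noncomputable def badkJ (L X k J : ℕ) : Finset ℕ :=
  bad (2 ^ L) (2 ^ (qq L * KK L)) (2 ^ (L + qq L * k)) (4 * L) X J (PP L k J)

/-- the exceptional numbers -/
def isExc (L X N : ℕ) : Prop := N < 2 ^ RR L ∨
    (∃ n ∈ range (2 ^ L + 1), 2 ^ (4 * L) < tau (2 ^ BB L) (2 * N - n)) ∨
    ∃ k ∈ Icc 1 (KK L), ∃ J ∈ Icc 1 (8 * KK L), N ∈ badkJ L X k J

lemma one_le_Th (L : ℕ) : 1 ≤ Th L := by unfold Th; omega

lemma L_le_Th (L : ℕ) : L ≤ Th L := by unfold Th; nlinarith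

lemma L_lt_RR (L : ℕ) : 4 * L + 20 ≤ RR L := by
  have h1 : RR L = 72 * (Th L * (KK L * KK L)) := by unfold RR qq; ring
  have h2 : KK L * KK L ≤ Th L * (KK L * KK L) := Nat.le_mul_of_pos_left _ (one_le_Th L)
  have h3 : 2 * KK L ≤ KK L * KK L := Nat.mul_le_mul_right _ (by unfold KK; omega)
  have h4 : KK L = L + 2 := rfl
  omega

lemma T_lt {L N : ℕ} (h : 2 ^ RR L ≤ N) : 2 ^ L < N := by
  refine lt_of_lt_of_le (Nat.pow_lt_pow_right (by norm_num) ?_) h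
  have := L_lt_RR L
  omega

lemma hq (L : ℕ) : 2 * 2 ^ L + 3 < 2 ^ qq L := by
  have h1 : L + 3 ≤ qq L := by unfold qq Th; nlinarith
  have h2 : 2 ^ (L + 3) ≤ 2 ^ qq L := Nat.pow_le_pow_right (by norm_num) h1
  have h3 : 2 ^ (L + 3) = 8 * 2 ^ L := by rw [pow_add]; ring
  have h4 : 1 ≤ 2 ^ L := Nat.one_le_two_pow
  omega

lemma hB (L : ℕ) : 2 ^ L + 2 * 2 ^ (qq L * KK L) < 2 ^ BB L := by
  unfold BB
  have h1 : 2 ^ L ≤ 2 ^ (qq L * KK L) := Nat.pow_le_pow_right (by norm_num) (by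
    have h4 : Th L * 1 ≤ qq L * KK L := Nat.mul_le_mul (by unfold qq; omega) (by unfold KK; omega)
    have h5 := L_le_Th L
    omega)
  have h2 : 2 ^ (qq L * KK L + 2) = 4 * 2 ^ (qq L * KK L) := by rw [pow_add]; ring
  have h3 : 0 < 2 ^ (qq L * KK L) := by positivity
  omega

/-- outside the exceptional set the defect is small -/
theorem good {L X N : ℕ} (hL : 6 ≤ L) (hNX : N ≤ X) (hN : ¬ isExc L X N) (a : ℕ → ℤ)
    (ha1 : a 1 = (N : ℤ) - 2)
    (ha : ∀ n : ℕ, 2 ≤ n → a n = a (n - 1) -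
      ((Int.gcd (a (n - 1)) ((N : ℤ) - (-1) ^ n * ((N : ℤ) - (n : ℤ))) : ℕ) : ℤ))
    (v : ℕ) (hv1 : 1 ≤ v) (hvT : v ≤ 2 ^ L) : dd a N v < 2 ^ (qq L * KK L) := by
  classical
  unfold isExc at hN
  rw [not_or, not_or] at hN
  obtain ⟨hN1, hN2, hN3⟩ := hN
  rw [not_lt] at hN1
  have hN2' : ∀ n ≤ 2 ^ L, tau (2 ^ BB L) (2 * N - n) ≤ 2 ^ (4 * L) := by
    intro n hn
    by_contra hc
    exact hN2 ⟨n, mem_range.2 (Nat.lt_succ_of_le hn), not_le.1 hc⟩
  have hTN := T_lt hN1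
  have hD := desc hTN ha1 ha
  by_contra hcon
  push Not at hcon
  obtain ⟨u, hu1, huv, hlt, hge⟩ := exists_first hD hv1 hcon
  have hK8 : 8 ≤ KK L := by unfold KK; omega
  have hTK : 2 ^ L < 2 ^ (KK L - 1) :=
    Nat.pow_lt_pow_right (by norm_num) (by unfold KK; omega)
  have hu2 : u + 1 ≤ 2 ^ L := huv.trans hvT
  refine contra hD (hq L) hK8 (Nat.le_add_left 1 u) hu2 hge hTK ?_
  intro k s t hk1 hk2 hs hst htu hcnt
  rcases Nat.eq_zero_or_pos (cnt (gg a N) (qq L) k s t) with h0 | h0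
  · have h1 : ∑ m ∈ Ioc k (KK L), cnt (gg a N) (qq L) m s t = 0 := by
      refine sum_eq_zero fun m hm => ?_
      rw [mem_Ioc] at hm
      have := cnt_anti (gg a N) (qq L) hm.1.le s t
      omega
    rw [h0, h1]
    omega
  · obtain ⟨i, rfl⟩ := Nat.exists_eq_add_of_le hst
    have h1 := typical hD hNX hTN (q := qq L) (k := k) (K := KK L) (Dm := 2 ^ (qq L * KK L))
      (E := 2 ^ (L + qq L * k)) (w := 4 * L) (s := s) (i := i)
      (P := PP L k (cnt (gg a N) (qq L) k s (s + i))) hs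
      (Nat.pow_lt_pow_right (by norm_num) (by
        have h2 : L < qq L := by unfold qq Th; nlinarith
        have h3 : qq L ≤ qq L * k := Nat.le_mul_of_pos_right _ (by omega)
        omega))
      (le_of_eq (pow_add _ _ _).symm)
      (by omega)
      (by
        intro n hn1 hn2 hTg
        have hnT : n < 2 ^ L := by omega
        rcases hD.small n (by omega) hnT with h | h
        · omega
        · refine omega_le (R := 2 ^ BB L) (by omega) h.2.2 ?_ (hN2' (n + 1) hnT)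
          have h5 := Nat.le_of_dvd (by omega) h.1
          have h6 := hlt n (by omega) (by omega)
          have h7 := hB L
          omega)
      (fun n h1 h2 => hlt n (by omega) (by omega))
      (fun hc => hN3 ⟨k, by rw [mem_Icc]; exact ⟨hk1, hk2⟩, _, by rw [mem_Icc]; exact ⟨h0, hcnt⟩, hc⟩)
    unfold PP at h1
    have h2 := (Nat.pow_lt_pow_iff_right (by norm_num)).1 h1
    set J := cnt (gg a N) (qq L) k s (s + i)
    set S := ∑ m ∈ Ioc k (KK L), cnt (gg a N) (qq L) m s (s + i)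
    have h3 : qq L * S < Th L * J + qq L * (KK L + 1 - k) := by
      have h4 : qq L * (k * J + S) = qq L * k * J + qq L * S := by ring
      omega
    have h5 : Th L * (8 * S) < Th L * (J + 8 * (KK L + 1 - k)) := by
      calc Th L * (8 * S) = qq L * S := by unfold qq; ring
        _ < _ := h3
        _ = Th L * (J + 8 * (KK L + 1 - k)) := by unfold qq; ring
    exact Nat.lt_of_mul_lt_mul_left h5

/-- the bound for the codes -/
lemma codes_le {L k J : ℕ} (hδ : (BB L * BB L + 1) ^ 4 ≤ 2 ^ L) :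
    (codes (2 ^ L) (2 ^ (qq L * KK L)) (2 ^ (L + qq L * k)) (4 * L) (J + 1)).card ≤
      2 ^ ((L + 1 + qq L * KK L + L * L) + (L + 1 + (L + qq L * k) + L * L) * J) := by
  refine (card_codes (hB L) J).trans ?_
  have h1 : (BB L * BB L + 1) ^ (4 * L) ≤ 2 ^ (L * L) := by
    rw [pow_mul, pow_mul]
    exact Nat.pow_le_pow_left hδ _
  have h2 : 2 ^ L + 1 ≤ 2 ^ (L + 1) := by
    rw [pow_succ]
    have : 1 ≤ 2 ^ L := Nat.one_le_two_pow
    omega
  calc _ ≤ (2 ^ (L + 1) * 2 ^ (qq L * KK L) * 2 ^ (L * L)) *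
        (2 ^ (L + 1) * 2 ^ (L + qq L * k) * 2 ^ (L * L)) ^ J := by gcongr
    _ = _ := by
        rw [← pow_add, ← pow_add, ← pow_add, ← pow_add, ← pow_mul, ← pow_add]

lemma codes_le_R {L k J : ℕ} (hδ : (BB L * BB L + 1) ^ 4 ≤ 2 ^ L) (hL : 6 ≤ L) (hk : k ≤ KK L)
    (hJ : J + 1 ≤ 8 * KK L) :
    (codes (2 ^ L) (2 ^ (qq L * KK L)) (2 ^ (L + qq L * k)) (4 * L) (J + 1)).card ≤ 2 ^ RR L := by
  refine (codes_le hδ).trans (Nat.pow_le_pow_right (by norm_num) ?_)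
  have h1 : L + 1 + (L + qq L * k) + L * L ≤ Th L + qq L * KK L := by
    have : qq L * k ≤ qq L * KK L := Nat.mul_le_mul_left _ hk
    have h2 : L + 1 + L + L * L ≤ Th L := by unfold Th; nlinarith
    omega
  have h2 : (L + 1 + (L + qq L * k) + L * L) * J ≤ (Th L + qq L * KK L) * (8 * KK L) :=
    Nat.mul_le_mul h1 (by omega)
  have h3 : L + 1 + L * L ≤ qq L := by unfold qq Th; nlinarith
  have h4 : (Th L + qq L * KK L) * (8 * KK L) = qq L * KK L + 8 * (qq L * KK L * KK L) := by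
    unfold qq; ring
  have h5 : RR L = 9 * (qq L * KK L * KK L) := by unfold RR; ring
  have h6 : qq L + 2 * (qq L * KK L) ≤ qq L * KK L * KK L := by
    have h7 : 1 + 2 * KK L ≤ KK L * KK L := by unfold KK; nlinarith
    calc qq L + 2 * (qq L * KK L) = qq L * (1 + 2 * KK L) := by ring
      _ ≤ qq L * (KK L * KK L) := Nat.mul_le_mul_left _ h7
      _ = _ := by ring
  omega

lemma codes_P {L k J : ℕ} (hδ : (BB L * BB L + 1) ^ 4 ≤ 2 ^ L) (hk : k ≤ KK L)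
    (hJ : J + 1 ≤ 8 * KK L) :
    (codes (2 ^ L) (2 ^ (qq L * KK L)) (2 ^ (L + qq L * k)) (4 * L) (J + 1)).card *
      ((2 ^ L) ^ ((J + 1) * (J + 1)) * 2 ^ qq L) ≤ PP L k (J + 1) := by
  refine (Nat.mul_le_mul_right _ (codes_le hδ)).trans ?_
  unfold PP
  rw [← pow_mul, ← pow_add, ← pow_add]
  refine Nat.pow_le_pow_right (by norm_num) ?_
  obtain ⟨r, hr⟩ := Nat.exists_eq_add_of_le hk
  have h1 : KK L + 1 - k = r + 1 := by omega
  rw [h1]
  have h2 : qq L * KK L = qq L * k + qq L * r := by rw [hr]; ring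
  have h3 : L * ((J + 1) * (J + 1)) ≤ (8 * L * (L + 2)) * (J + 1) := by
    have h4 : J + 1 ≤ 8 * (L + 2) := hJ
    calc L * ((J + 1) * (J + 1)) ≤ L * ((8 * (L + 2)) * (J + 1)) := by gcongr
      _ = (8 * L * (L + 2)) * (J + 1) := by ring
  have h5 : Th L * (J + 1) = (L * L + 2 * L + 1) * (J + 1) + (8 * L * (L + 2)) * (J + 1) := by
    unfold Th; ring
  have h6 : (L + 1 + (L + qq L * k) + L * L) * J = (L * L + 2 * L + 1) * J + qq L * k * J := by ring
  have h7 : (L * L + 2 * L + 1) * (J + 1) = (L * L + 2 * L + 1) * J + (L * L + 2 * L + 1) := by ring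
  have h8 : qq L * k * (J + 1) = qq L * k * J + qq L * k := by ring
  have h9 : qq L * (r + 1) = qq L * r + qq L := by ring
  omega

lemma card_badkJ {L X k J : ℕ} (hδ : (BB L * BB L + 1) ^ 4 ≤ 2 ^ L) (hL : 6 ≤ L) (hk : k ≤ KK L)
    (hJ : J + 1 ≤ 8 * KK L) : (badkJ L X k (J + 1)).card * 2 ^ qq L ≤ X + 2 ^ (RR L + qq L) := by
  have hP : 0 < PP L k (J + 1) := by unfold PP; positivity
  have h1 := card_bad (T := 2 ^ L) (Dm := 2 ^ (qq L * KK L)) (E := 2 ^ (L + qq L * k)) (w := 4 * L)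
    (X := X) (J := J + 1) Nat.one_le_two_pow hP
  have h2 := codes_le_R hδ hL hk hJ
  have h3 := codes_P hδ hk hJ
  set c := (codes (2 ^ L) (2 ^ (qq L * KK L)) (2 ^ (L + qq L * k)) (4 * L) (J + 1)).card
  have h4 : c * (X * (2 ^ L) ^ ((J + 1) * (J + 1)) / PP L k (J + 1)) * 2 ^ qq L ≤ X := by
    refine Nat.le_of_mul_le_mul_right ?_ hP
    calc c * (X * (2 ^ L) ^ ((J + 1) * (J + 1)) / PP L k (J + 1)) * 2 ^ qq L * PP L k (J + 1)
        = c * 2 ^ qq L *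
          ((X * (2 ^ L) ^ ((J + 1) * (J + 1)) / PP L k (J + 1)) * PP L k (J + 1)) := by ring
      _ ≤ c * 2 ^ qq L * (X * (2 ^ L) ^ ((J + 1) * (J + 1))) :=
          Nat.mul_le_mul_left _ (Nat.div_mul_le_self _ _)
      _ = X * (c * ((2 ^ L) ^ ((J + 1) * (J + 1)) * 2 ^ qq L)) := by ring
      _ ≤ X * PP L k (J + 1) := Nat.mul_le_mul_left _ h3
  calc (badkJ L X k (J + 1)).card * 2 ^ qq L
      ≤ (c * (X * (2 ^ L) ^ ((J + 1) * (J + 1)) / PP L k (J + 1) + 1)) * 2 ^ qq L :=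
        Nat.mul_le_mul_right _ h1
    _ = c * (X * (2 ^ L) ^ ((J + 1) * (J + 1)) / PP L k (J + 1)) * 2 ^ qq L + c * 2 ^ qq L := by ring
    _ ≤ X + 2 ^ RR L * 2 ^ qq L := Nat.add_le_add h4 (Nat.mul_le_mul_right _ h2)
    _ = X + 2 ^ (RR L + qq L) := by rw [pow_add]

end Pool.Agent.K7.H91.GB
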