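import Mathlib

set_option autoImplicit false

/-!
# Divisors with few prime factors; least common multiples of numbers with small common divisors
-/

namespace Pool.Agent.K7.H91.GB

open Finset

/-- the divisors of `m` with at most `w` distinct prime factors -/
def fewDiv (w m : ℕ) : Finset ℕ := m.divisors.filter (fun G => G.primeFactors.card ≤ w)

lemma mem_fewDiv {w m G : ℕ} : G ∈ fewDiv w m ↔ (G ∣ m ∧ m ≠ 0) ∧ G.primeFactors.card ≤ w := by
  unfold fewDiv
  rw [mem_filter, Nat.mem_divisors]

lemma two_pow_omega_le {m : ℕ} (hm : m ≠ 0) : 2 ^ m.primeFactors.card ≤ m := by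
  calc 2 ^ m.primeFactors.card = ∏ _p ∈ m.primeFactors, 2 := by rw [prod_const]
    _ ≤ ∏ p ∈ m.primeFactors, p :=
        prod_le_prod' fun p hp => (Nat.prime_of_mem_primeFactors hp).two_le
    _ ≤ m := Nat.le_of_dvd (Nat.pos_of_ne_zero hm) (Nat.prod_primeFactors_dvd m)

lemma card_fewDiv (w m B : ℕ) (hm : m < 2 ^ B) : (fewDiv w m).card ≤ (B * B + 1) ^ w := by
  classical
  rcases Nat.eq_zero_or_pos m with h0 | h0
  · subst h0
    simp [fewDiv]
  induction w with
  | zero =>
    rw [pow_zero, Finset.card_le_one]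
    intro a ha b hb
    rw [mem_fewDiv] at ha hb
    have h1 : ∀ c : ℕ, c ∣ m → c.primeFactors.card ≤ 0 → c = 1 := by
      intro c hc hc2
      rw [Nat.le_zero, Finset.card_eq_zero, Nat.primeFactors_eq_empty] at hc2
      rcases hc2 with h | h
      · subst h; exact absurd (zero_dvd_iff.1 hc) h0.ne'
      · exact h
    rw [h1 a ha.1.1 ha.2, h1 b hb.1.1 hb.2]
  | succ w ih =>
    set PP : Finset ℕ := insert 1 ((m.primeFactors ×ˢ range B).image (fun x => x.1 ^ x.2)) with hPP
    have hcardPP : PP.card ≤ B * B + 1 := by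
      refine (card_insert_le _ _).trans (Nat.succ_le_succ ?_)
      refine card_image_le.trans ?_
      rw [card_product, card_range]
      refine Nat.mul_le_mul_right _ ?_
      have h2 : 2 ^ m.primeFactors.card < 2 ^ B := (two_pow_omega_le h0.ne').trans_lt hm
      exact ((Nat.pow_lt_pow_iff_right (by norm_num)).1 h2).le
    have hsub : fewDiv (w + 1) m ⊆ ((fewDiv w m) ×ˢ PP).image (fun x => x.1 * x.2) := by
      intro G hG
      rw [mem_fewDiv] at hG
      obtain ⟨⟨hGm, hm0⟩, hGw⟩ := hG
      have hG0 : G ≠ 0 := fun h => hm0 (by rw [h] at hGm; exact zero_dvd_iff.1 hGm)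
      rw [mem_image]
      by_cases hw : G.primeFactors.card ≤ w
      · refine ⟨(G, 1), ?_, by simp⟩
        rw [mem_product]
        exact ⟨mem_fewDiv.2 ⟨⟨hGm, hm0⟩, hw⟩, mem_insert_self _ _⟩
      · have hne : G.primeFactors.Nonempty := by
          rw [← Finset.card_pos]; omega
        obtain ⟨p, hp⟩ := hne
        have hpp := Nat.prime_of_mem_primeFactors hp
        refine ⟨(ordCompl[p] G, ordProj[p] G), ?_, ?_⟩
        · rw [mem_product]
          refine ⟨mem_fewDiv.2 ⟨⟨(Nat.ordCompl_dvd G p).trans hGm, hm0⟩, ?_⟩, ?_⟩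
          · have h1 : (ordCompl[p] G).primeFactors = G.primeFactors.erase p := by
              rw [← Nat.support_factorization, Nat.factorization_ordCompl, Finsupp.support_erase,
                Nat.support_factorization]
            show (ordCompl[p] G).primeFactors.card ≤ w
            rw [h1, Finset.card_erase_of_mem hp]
            omega
          · apply mem_insert_of_mem
            rw [mem_image]
            refine ⟨(p, G.factorization p), ?_, rfl⟩
            rw [mem_product, mem_range]
            refine ⟨Nat.mem_primeFactors.2 ⟨hpp, (Nat.dvd_of_mem_primeFactors hp).trans hGm, hm0⟩, ?_⟩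
            have h2 : p ^ (G.factorization p) ∣ m := (Nat.ordProj_dvd G p).trans hGm
            have h3 : 2 ^ (G.factorization p) < 2 ^ B :=
              ((Nat.pow_le_pow_left hpp.two_le _).trans (Nat.le_of_dvd h0 h2)).trans_lt hm
            exact (Nat.pow_lt_pow_iff_right (by norm_num)).1 h3
        · show ordCompl[p] G * ordProj[p] G = G
          rw [mul_comm]
          exact Nat.ordProj_mul_ordCompl_eq_self G p
    calc (fewDiv (w + 1) m).card ≤ (((fewDiv w m) ×ˢ PP).image (fun x => x.1 * x.2)).card :=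
          card_le_card hsub
      _ ≤ ((fewDiv w m) ×ˢ PP).card := card_image_le
      _ = (fewDiv w m).card * PP.card := card_product _ _
      _ ≤ (B * B + 1) ^ w * (B * B + 1) := Nat.mul_le_mul ih hcardPP
      _ = (B * B + 1) ^ (w + 1) := (pow_succ _ _).symm

/-- the least common multiple of a list -/
def lcmL (l : List ℕ) : ℕ := l.foldr Nat.lcm 1

lemma lcmL_cons (x : ℕ) (l : List ℕ) : lcmL (x :: l) = Nat.lcm x (lcmL l) := rfl

lemma lcmL_pos {l : List ℕ} (h : ∀ x ∈ l, 0 < x) : 0 < lcmL l := by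
  induction l with
  | nil => simp [lcmL]
  | cons x l ih =>
    rw [lcmL_cons]
    exact Nat.lcm_pos (h x (by simp)) (ih fun y hy => h y (by simp [hy]))

lemma lcmL_dvd {l : List ℕ} {a : ℕ} (h : ∀ x ∈ l, x ∣ a) : lcmL l ∣ a := by
  induction l with
  | nil => simp [lcmL]
  | cons x l ih =>
    rw [lcmL_cons]
    exact Nat.lcm_dvd (h x (by simp)) (ih fun y hy => h y (by simp [hy]))

lemma gcd_lcmL_le {T x : ℕ} (hx : 0 < x) {l : List ℕ} (hpos : ∀ y ∈ l, 0 < y)
    (h : ∀ y ∈ l, Nat.gcd x y ≤ T) : Nat.gcd x (lcmL l) ≤ T ^ l.length := by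
  induction l with
  | nil => simp [lcmL]
  | cons y l ih =>
    rw [lcmL_cons, List.length_cons, pow_succ]
    have h1 := ih (fun z hz => hpos z (by simp [hz])) (fun z hz => h z (by simp [hz]))
    have h2 := h y (by simp)
    have h3 : Nat.gcd x (Nat.lcm y (lcmL l)) ∣ Nat.gcd x (lcmL l) * Nat.gcd x y := by
      have h4 : Nat.gcd x (Nat.lcm y (lcmL l)) ∣ Nat.gcd x (y * lcmL l) :=
        Nat.gcd_dvd_gcd_of_dvd_right _ (Nat.lcm_dvd_mul _ _)
      exact h4.trans ((Nat.gcd_mul_right_dvd_mul_gcd x y (lcmL l)).trans (by rw [mul_comm]))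
    refine (Nat.le_of_dvd ?_ h3).trans (Nat.mul_le_mul h1 h2)
    exact Nat.mul_pos (Nat.gcd_pos_of_pos_left _ hx) (Nat.gcd_pos_of_pos_left _ hx)

lemma prod_le_lcmL {T : ℕ} (hT : 1 ≤ T) {l : List ℕ} (hpos : ∀ y ∈ l, 0 < y)
    (h : l.Pairwise (fun x y => Nat.gcd x y ≤ T)) :
    l.prod ≤ lcmL l * T ^ (l.length * l.length) := by
  induction l with
  | nil => simp [lcmL]
  | cons x l ih =>
    rw [List.pairwise_cons] at h
    have hx : 0 < x := hpos x (by simp)
    have hl : ∀ y ∈ l, 0 < y := fun y hy => hpos y (by simp [hy])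
    have h1 := ih hl h.2
    have h2 := gcd_lcmL_le hx hl h.1
    rw [List.prod_cons, lcmL_cons, List.length_cons]
    calc x * l.prod ≤ x * (lcmL l * T ^ (l.length * l.length)) := Nat.mul_le_mul_left _ h1
      _ = (x * lcmL l) * T ^ (l.length * l.length) := by ring
      _ = (Nat.gcd x (lcmL l) * Nat.lcm x (lcmL l)) * T ^ (l.length * l.length) := by
          rw [Nat.gcd_mul_lcm]
      _ ≤ (T ^ l.length * Nat.lcm x (lcmL l)) * T ^ (l.length * l.length) := by
          gcongr
      _ = Nat.lcm x (lcmL l) * T ^ (l.length * l.length + l.length) := by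
          rw [pow_add]; ring
      _ ≤ Nat.lcm x (lcmL l) * T ^ ((l.length + 1) * (l.length + 1)) := by
          gcongr
          nlinarith

/-- a set of naturals `≤ X` all of whose differences are divisible by `M` -/
lemma card_le_of_modEq {X M : ℕ} (S : Finset ℕ) (hS : ∀ a ∈ S, a ≤ X)
    (h : ∀ a ∈ S, ∀ b ∈ S, a ≡ b [MOD M]) : S.card ≤ X / M + 1 := by
  rw [← card_range (X / M + 1)]
  apply Finset.card_le_card_of_injOn (fun a => a / M)
  · intro a ha
    simp only [coe_range, Set.mem_Iio]
    exact Nat.lt_succ_of_le (Nat.div_le_div_right (hS a ha))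
  · intro a ha b hb hab
    have h1 := h a ha b hb
    simp only at hab
    rw [← Nat.div_add_mod a M, ← Nat.div_add_mod b M, hab, show a % M = b % M from h1]

end Pool.Agent.K7.H91.GB
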