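import Pool.Agent.K7.H91.GB.Count

set_option autoImplicit false

/-!
# The number of the exceptional numbers
-/

namespace Pool.Agent.K7.H91.GB

open Finset

noncomputable def EA (L X : ℕ) : Finset ℕ := (Icc 1 X).filter fun N => N < 2 ^ RR L

noncomputable def EB (L X : ℕ) : Finset ℕ :=
  (range (2 ^ L + 1)).biUnion fun n => (Icc 1 X).filter fun N => 2 ^ RR L ≤ N ∧
    2 ^ (4 * L) < tau (2 ^ BB L) (2 * N - n)

noncomputable def EC (L X : ℕ) : Finset ℕ :=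
  (Icc 1 (KK L)).biUnion fun k => (Icc 1 (8 * KK L)).biUnion fun J => badkJ L X k J

noncomputable def Exc (L X : ℕ) : Finset ℕ := EA L X ∪ EB L X ∪ EC L X

lemma mem_Exc {L X N : ℕ} (h1 : 1 ≤ N) (hX : N ≤ X) (h : isExc L X N) : N ∈ Exc L X := by
  unfold Exc
  rw [mem_union, mem_union]
  rcases h with h | h | h
  · exact Or.inl (Or.inl (mem_filter.2 ⟨mem_Icc.2 ⟨h1, hX⟩, h⟩))
  · rcases lt_or_ge N (2 ^ RR L) with h' | h'
    · exact Or.inl (Or.inl (mem_filter.2 ⟨mem_Icc.2 ⟨h1, hX⟩, h'⟩))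
    · obtain ⟨n, hn, h⟩ := h
      exact Or.inl (Or.inr (mem_biUnion.2 ⟨n, hn, mem_filter.2 ⟨mem_Icc.2 ⟨h1, hX⟩, h', h⟩⟩))
  · obtain ⟨k, hk, J, hJ, h⟩ := h
    exact Or.inr (mem_biUnion.2 ⟨k, hk, mem_biUnion.2 ⟨J, hJ, h⟩⟩)

/-- the small numbers -/
lemma card_A {L X : ℕ} (hX : 2 ^ (2 * RR L) ≤ X) : (EA L X).card * 2 ^ (L + 2) ≤ X := by
  have h1 : (EA L X).card ≤ 2 ^ RR L := by
    calc _ ≤ (range (2 ^ RR L)).card :=
          card_le_card (fun N hN => by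
            unfold EA at hN; rw [mem_filter] at hN; exact mem_range.2 hN.2)
      _ = _ := card_range _
  calc _ ≤ 2 ^ RR L * 2 ^ (L + 2) := Nat.mul_le_mul_right _ h1
    _ = 2 ^ (RR L + (L + 2)) := by rw [pow_add _ _ (L + 2)]
    _ ≤ 2 ^ (2 * RR L) := Nat.pow_le_pow_right (by norm_num) (by have := L_lt_RR L; omega)
    _ ≤ X := hX

/-- the numbers with many divisors -/
lemma card_B {L X : ℕ} (hB2 : 16 * (BB L + 1) ≤ 2 ^ (2 * L)) :
    (EB L X).card * 2 ^ (L + 2) ≤ X := by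
  set D := (Icc 1 (2 * X)).filter fun M => 2 ^ (4 * L) < tau (2 ^ BB L) M
  have h1 : D.card * 2 ^ (4 * L) ≤ 2 * X * (BB L + 1) := card_tau _ _ _ _ le_rfl
  have h2 : (EB L X).card ≤ (2 ^ L + 1) * D.card := by
    unfold EB
    refine card_biUnion_le.trans ?_
    have h4 : ∀ n ∈ range (2 ^ L + 1), ((Icc 1 X).filter fun N => 2 ^ RR L ≤ N ∧
        2 ^ (4 * L) < tau (2 ^ BB L) (2 * N - n)).card ≤ D.card := by
      intro n hn
      rw [mem_range] at hn
      refine card_le_card_of_injOn (fun N => 2 * N - n) ?_ ?_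
      · intro N hN
        rw [mem_coe, mem_filter, mem_Icc] at hN
        have hT := T_lt hN.2.1
        rw [mem_coe, mem_filter, mem_Icc]
        exact ⟨by dsimp only; omega, hN.2.2⟩
      · intro N hN M hM h
        rw [mem_coe, mem_filter, mem_Icc] at hN hM
        have hT := T_lt hN.2.1
        have hT' := T_lt hM.2.1
        dsimp only at h
        omega
    refine (sum_le_sum h4).trans ?_
    rw [sum_const, card_range, smul_eq_mul]
  have h5 : 2 ^ L + 1 ≤ 2 ^ (L + 1) := by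
    rw [pow_succ]
    have : 1 ≤ 2 ^ L := Nat.one_le_two_pow
    omega
  have hpos : 0 < 2 ^ (4 * L) := by positivity
  refine Nat.le_of_mul_le_mul_right ?_ hpos
  calc _ ≤ (2 ^ (L + 1) * D.card) * 2 ^ (L + 2) * 2 ^ (4 * L) := by
        refine Nat.mul_le_mul_right _ (Nat.mul_le_mul_right _ (h2.trans (Nat.mul_le_mul_right _ h5)))
    _ = 2 ^ (L + 1) * 2 ^ (L + 2) * (D.card * 2 ^ (4 * L)) := by ring
    _ ≤ 2 ^ (L + 1) * 2 ^ (L + 2) * (2 * X * (BB L + 1)) := Nat.mul_le_mul_left _ h1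
    _ = X * (2 ^ (2 * L) * (16 * (BB L + 1))) := by
        rw [pow_succ, pow_add, two_mul L, pow_add]; ring
    _ ≤ X * (2 ^ (2 * L) * 2 ^ (2 * L)) := by gcongr
    _ = X * 2 ^ (4 * L) := by rw [← pow_add]; congr 2; ring

lemma hqR (L : ℕ) : RR L + qq L ≤ 2 * RR L := by
  have h2 : RR L = qq L * (9 * KK L * KK L) := by unfold RR; ring
  have h3 : qq L * 1 ≤ qq L * (9 * KK L * KK L) := Nat.mul_le_mul_left _ (by unfold KK; nlinarith)
  omega

lemma h8K {L : ℕ} (hL : 6 ≤ L) : 8 * (KK L * KK L) * 2 ^ (L + 2) ≤ 2 ^ qq L := by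
  have h5 : KK L ≤ 2 ^ (L + 2) := by
    unfold KK
    exact (Nat.lt_two_pow_self).le
  calc 8 * (KK L * KK L) * 2 ^ (L + 2) ≤ 8 * (2 ^ (L + 2) * 2 ^ (L + 2)) * 2 ^ (L + 2) := by gcongr
    _ = 2 ^ (3 + (L + 2) + (L + 2) + (L + 2)) := by
        rw [pow_add 2 (3 + (L + 2) + (L + 2)) (L + 2), pow_add 2 (3 + (L + 2)) (L + 2),
          pow_add 2 3 (L + 2)]; ring
    _ ≤ _ := Nat.pow_le_pow_right (by norm_num) (by unfold qq Th; nlinarith)

/-- the numbers with many large gcds in a run -/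
lemma card_C {L X : ℕ} (hδ : (BB L * BB L + 1) ^ 4 ≤ 2 ^ L) (hL : 6 ≤ L)
    (hX : 2 ^ (2 * RR L) ≤ X) : (EC L X).card * 2 ^ (L + 2) ≤ 2 * X := by
  have h2 : ∀ k ∈ Icc 1 (KK L), ∀ J ∈ Icc 1 (8 * KK L), (badkJ L X k J).card * 2 ^ qq L ≤ 2 * X := by
    intro k hk J hJ
    rw [mem_Icc] at hk hJ
    obtain ⟨J', rfl⟩ : ∃ J', J = J' + 1 := ⟨J - 1, by omega⟩
    have h3 := card_badkJ (X := X) hδ hL hk.2 hJ.2
    have h4 : 2 ^ (RR L + qq L) ≤ X := (Nat.pow_le_pow_right (by norm_num) (hqR L)).trans hX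
    omega
  have h3 : (EC L X).card * 2 ^ qq L ≤ KK L * (8 * KK L * (2 * X)) := by
    calc _ ≤ (∑ k ∈ Icc 1 (KK L), ∑ J ∈ Icc 1 (8 * KK L), (badkJ L X k J).card) * 2 ^ qq L := by
          refine Nat.mul_le_mul_right _ (card_biUnion_le.trans ?_)
          exact sum_le_sum fun k _ => card_biUnion_le
      _ = ∑ k ∈ Icc 1 (KK L), ∑ J ∈ Icc 1 (8 * KK L), (badkJ L X k J).card * 2 ^ qq L := by
          rw [sum_mul]
          exact sum_congr rfl fun k _ => sum_mul _ _ _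
      _ ≤ ∑ k ∈ Icc 1 (KK L), ∑ J ∈ Icc 1 (8 * KK L), 2 * X :=
          sum_le_sum fun k hk => sum_le_sum fun J hJ => h2 k hk J hJ
      _ = _ := by simp
  have h4 := h8K hL
  have hpos : 0 < 2 ^ qq L := by positivity
  refine Nat.le_of_mul_le_mul_right ?_ hpos
  generalize (EC L X).card = e at h3 ⊢
  generalize 2 ^ qq L = Q at h3 h4 hpos ⊢
  generalize 2 ^ (L + 2) = W at h4 ⊢
  calc e * W * Q = e * Q * W := by ring
    _ ≤ KK L * (8 * KK L * (2 * X)) * W := Nat.mul_le_mul_right _ h3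
    _ = 2 * X * (8 * (KK L * KK L) * W) := by ring
    _ ≤ 2 * X * Q := Nat.mul_le_mul_left _ h4

/-- the number of the exceptional numbers -/
theorem card_exc {L X : ℕ} (hδ : (BB L * BB L + 1) ^ 4 ≤ 2 ^ L) (hL : 6 ≤ L)
    (hX : 2 ^ (2 * RR L) ≤ X) : (Exc L X).card * 2 ^ L ≤ X := by
  have hB2 : 16 * (BB L + 1) ≤ 2 ^ (2 * L) := by
    have h1 : BB L + 1 ≤ 2 ^ L := by
      refine le_trans ?_ hδ
      refine le_trans ?_ (Nat.le_self_pow (by norm_num) _)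
      have h2 : 1 ≤ BB L := by unfold BB; omega
      nlinarith
    have h2 : 16 ≤ 2 ^ L := by
      calc 16 = 2 ^ 4 := by norm_num
        _ ≤ 2 ^ L := Nat.pow_le_pow_right (by norm_num) (by omega)
    calc 16 * (BB L + 1) ≤ 2 ^ L * 2 ^ L := Nat.mul_le_mul h2 h1
      _ = 2 ^ (2 * L) := by rw [two_mul, pow_add]
  have hA := card_A hX
  have hB := card_B (X := X) hB2
  have hC := card_C hδ hL hX
  have h2 : (Exc L X).card ≤ (EA L X).card + (EB L X).card + (EC L X).card := by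
    unfold Exc
    exact (card_union_le _ _).trans (Nat.add_le_add_right (card_union_le _ _) _)
  have h3 := Nat.mul_le_mul_right (2 ^ (L + 2)) h2
  rw [add_mul, add_mul] at h3
  have h4 : 2 ^ (L + 2) = 2 ^ L * 4 := by rw [pow_add]; norm_num
  have h5 : (Exc L X).card * 2 ^ (L + 2) ≤ 4 * X := by
    generalize (Exc L X).card * 2 ^ (L + 2) = e at h3 ⊢
    omega
  rw [h4, ← mul_assoc] at h5
  omega

end Pool.Agent.K7.H91.GB
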