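import Pool.Agent.K7.H91.GB.Exc

set_option autoImplicit false

/-!
# The parameters
-/

namespace Pool.Agent.K7.H91.GB

open Finset Filter

lemma BB_le {L : ℕ} (hL : 1 ≤ L) : BB L ≤ 700 * L ^ 3 := by
  unfold BB qq Th KK
  have h2 : 1 ≤ L * L := Nat.one_le_iff_ne_zero.2 (by positivity)
  have h3 : L ≤ L * L := Nat.le_mul_of_pos_left _ (by omega)
  have h4 : L * L ≤ L ^ 3 := by
    calc L * L = L * L * 1 := by ring
      _ ≤ L * L * L := Nat.mul_le_mul_left _ hL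
      _ = L ^ 3 := by ring
  calc 8 * (9 * L * L + 18 * L + 1) * (L + 2) + 2
      = 72 * L ^ 3 + 288 * (L * L) + 296 * L + 18 := by ring
    _ ≤ 700 * L ^ 3 := by omega

/-- the condition on `L` -/
lemma ev_delta : ∀ᶠ L : ℕ in atTop, (BB L * BB L + 1) ^ 4 ≤ 2 ^ L := by
  have h1 : Tendsto (fun n : ℕ => (n : ℝ) ^ 24 / (2 : ℝ) ^ n) atTop (nhds 0) :=
    tendsto_pow_const_div_const_pow_of_one_lt 24 (by norm_num)
  have h2 : ∀ᶠ n : ℕ in atTop, (n : ℝ) ^ 24 / (2 : ℝ) ^ n < 1 / (490001 : ℝ) ^ 4 :=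
    h1.eventually_lt_const (by positivity)
  filter_upwards [h2, eventually_ge_atTop 1] with L hL1 hL2
  have h3 : (490001 : ℝ) ^ 4 * (L : ℝ) ^ 24 ≤ 2 ^ L := by
    rw [div_lt_div_iff₀ (by positivity) (by positivity)] at hL1
    linarith
  have h4 : 490001 ^ 4 * L ^ 24 ≤ 2 ^ L := by exact_mod_cast h3
  refine le_trans ?_ h4
  have h5 := BB_le hL2
  have h6 : BB L * BB L + 1 ≤ 490001 * L ^ 6 := by
    have h7 : BB L * BB L ≤ (700 * L ^ 3) * (700 * L ^ 3) := Nat.mul_le_mul h5 h5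
    have h8 : 1 ≤ L ^ 6 := Nat.one_le_pow _ _ hL2
    calc BB L * BB L + 1 ≤ (700 * L ^ 3) * (700 * L ^ 3) + L ^ 6 := Nat.add_le_add h7 h8
      _ = 490001 * L ^ 6 := by ring
  calc (BB L * BB L + 1) ^ 4 ≤ (490001 * L ^ 6) ^ 4 := Nat.pow_le_pow_left h6 _
    _ = 490001 ^ 4 * L ^ 24 := by rw [mul_pow, ← pow_mul]

lemma log2_bounds : (0.6931 : ℝ) < Real.log 2 ∧ Real.log 2 < 0.6932 := by
  have h1 := Real.log_two_gt_d9
  have h2 := Real.log_two_lt_d9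
  constructor <;> linarith

/-- `X` is large enough -/
lemma key {L X : ℕ} {t : ℝ} (ht : 30 ≤ t) (hL : (L : ℝ) * Real.log 2 ≤ t + Real.log 2)
    (hX : 10 ^ 4 * t ^ 4 ≤ Real.log X) : 2 ^ (2 * RR L) ≤ X := by
  obtain ⟨l1, l2⟩ := log2_bounds
  set l := Real.log 2
  set u : ℝ := (L + 2) * l
  have hu0 : 0 ≤ u := by positivity
  have hu : u ≤ 1.1 * t := by
    simp only [u]
    nlinarith
  have hl3 : 0.3329 ≤ l ^ 3 := by
    calc (0.3329 : ℝ) ≤ 0.6931 ^ 3 := by norm_num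
      _ ≤ l ^ 3 := pow_le_pow_left₀ (by norm_num) l1.le 3
  have hl0 : 0 < l := by linarith
  have h1 : ((2 * RR L : ℕ) : ℝ) * l ≤ 10 ^ 4 * t ^ 4 := by
    have h2 : ((2 * RR L : ℕ) : ℝ) ≤ 1296 * (L + 2) ^ 4 := by
      unfold RR qq Th KK
      push_cast
      have : (0 : ℝ) ≤ L := Nat.cast_nonneg L
      nlinarith [pow_nonneg this 2, pow_nonneg this 3]
    have h3 : (L + 2 : ℝ) ^ 4 * l ^ 4 ≤ 1.4641 * t ^ 4 := by
      calc (L + 2 : ℝ) ^ 4 * l ^ 4 = u ^ 4 := by simp only [u]; ring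
        _ ≤ (1.1 * t) ^ 4 := pow_le_pow_left₀ hu0 hu 4
        _ = 1.4641 * t ^ 4 := by ring
    have h4 : (0 : ℝ) ≤ t ^ 4 := by positivity
    have h5 : 1296 * (L + 2 : ℝ) ^ 4 * l ≤ 10 ^ 4 * t ^ 4 := by
      have h6 : 1296 * (L + 2 : ℝ) ^ 4 * l * l ^ 3 ≤ 10 ^ 4 * t ^ 4 * l ^ 3 := by
        calc 1296 * (L + 2 : ℝ) ^ 4 * l * l ^ 3 = 1296 * ((L + 2 : ℝ) ^ 4 * l ^ 4) := by ring
          _ ≤ 1296 * (1.4641 * t ^ 4) := by linarith
          _ ≤ 10 ^ 4 * t ^ 4 * 0.3329 := by nlinarith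
          _ ≤ 10 ^ 4 * t ^ 4 * l ^ 3 := by
              refine mul_le_mul_of_nonneg_left hl3 (by positivity)
      exact le_of_mul_le_mul_right h6 (by positivity)
    calc ((2 * RR L : ℕ) : ℝ) * l ≤ 1296 * (L + 2) ^ 4 * l :=
          mul_le_mul_of_nonneg_right h2 hl0.le
      _ ≤ _ := h5
  have hX0 : (0 : ℝ) < X := by
    rcases Nat.eq_zero_or_pos X with h | h
    · exfalso
      rw [h] at hX
      norm_num at hX
      have : (0 : ℝ) < t ^ 4 := by positivity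
      linarith
    · exact_mod_cast h
  have h2 : ((2 : ℝ)) ^ (2 * RR L) ≤ X := by
    rw [← Real.log_le_log_iff (by positivity) hX0, Real.log_pow]
    exact h1.trans hX
  exact_mod_cast h2

/-- the bound for the defect -/
lemma key2 {L : ℕ} {t : ℝ} (ht : 30 ≤ t) (hL : (L : ℝ) * Real.log 2 ≤ t + Real.log 2) :
    (2 : ℝ) ^ (qq L * KK L) ≤ Real.exp (200 * t ^ 3) := by
  obtain ⟨l1, l2⟩ := log2_bounds
  rw [← Real.log_le_iff_le_exp (by positivity), Real.log_pow]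
  set l := Real.log 2
  set u : ℝ := (L + 2) * l
  have hu0 : 0 ≤ u := by positivity
  have hu : u ≤ 1.1 * t := by
    simp only [u]
    nlinarith
  have hl2 : 0.48 ≤ l ^ 2 := by
    calc (0.48 : ℝ) ≤ 0.6931 ^ 2 := by norm_num
      _ ≤ l ^ 2 := pow_le_pow_left₀ (by norm_num) l1.le 2
  have hl0 : 0 < l := by linarith
  have h2 : ((qq L * KK L : ℕ) : ℝ) ≤ 72 * (L + 2) ^ 3 := by
    unfold qq Th KK
    push_cast
    have : (0 : ℝ) ≤ L := Nat.cast_nonneg L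
    nlinarith [pow_nonneg this 2, pow_nonneg this 3]
  have h3 : (L + 2 : ℝ) ^ 3 * l ^ 3 ≤ 1.331 * t ^ 3 := by
    calc (L + 2 : ℝ) ^ 3 * l ^ 3 = u ^ 3 := by simp only [u]; ring
      _ ≤ (1.1 * t) ^ 3 := pow_le_pow_left₀ hu0 hu 3
      _ = 1.331 * t ^ 3 := by ring
  have h4 : (0 : ℝ) ≤ t ^ 3 := by positivity
  have h5 : 72 * (L + 2 : ℝ) ^ 3 * l ≤ 200 * t ^ 3 := by
    have h6 : 72 * (L + 2 : ℝ) ^ 3 * l * l ^ 2 ≤ 200 * t ^ 3 * l ^ 2 := by
      calc 72 * (L + 2 : ℝ) ^ 3 * l * l ^ 2 = 72 * ((L + 2 : ℝ) ^ 3 * l ^ 3) := by ring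
        _ ≤ 72 * (1.331 * t ^ 3) := by linarith
        _ ≤ 200 * t ^ 3 * 0.48 := by nlinarith
        _ ≤ 200 * t ^ 3 * l ^ 2 := by
            refine mul_le_mul_of_nonneg_left hl2 (by positivity)
    exact le_of_mul_le_mul_right h6 (by positivity)
  exact (mul_le_mul_of_nonneg_right h2 hl0.le).trans h5

/-- outside the exceptional set the terms are positive -/
lemma pos_of_good {L X N : ℕ} (hL : 6 ≤ L) (hNX : N ≤ X) (hN1 : 1 ≤ N) (hN : N ∉ Exc L X)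
    (a : ℕ → ℤ) (ha1 : a 1 = (N : ℤ) - 2)
    (ha : ∀ n : ℕ, 2 ≤ n → a n = a (n - 1) -
      ((Int.gcd (a (n - 1)) ((N : ℤ) - (-1) ^ n * ((N : ℤ) - (n : ℤ))) : ℕ) : ℤ))
    (v : ℕ) (hv1 : 1 ≤ v) (hvT : v ≤ 2 ^ L) :
    0 < a v ∧ (N : ℤ) - v - 2 ^ (qq L * KK L) ≤ a v := by
  have hex : ¬ isExc L X N := fun h => hN (mem_Exc hN1 hNX h)
  have h1 := good hL hNX hex a ha1 ha v hv1 hvT
  have hNR : 2 ^ RR L ≤ N := by
    by_contra hc
    exact hex (Or.inl (not_le.1 hc))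
  have h2 := a_eq (T_lt hNR) ha1 ha v hv1 hvT
  have h3 : (dd a N v : ℤ) + 1 ≤ 2 ^ (qq L * KK L) := by exact_mod_cast h1
  have h4 : 2 ^ L + 2 ^ (qq L * KK L) + 1 < 2 ^ RR L := by
    have h5 : qq L * KK L + 2 ≤ RR L := by
      have e1 : RR L = qq L * KK L * (9 * KK L) := by unfold RR; ring
      have e2 : 2 ≤ qq L * KK L := by
        have := Nat.mul_le_mul (show 1 ≤ qq L by unfold qq Th; omega)
          (show 2 ≤ KK L by unfold KK; omega)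
        omega
      have e3 : qq L * KK L * 2 ≤ qq L * KK L * (9 * KK L) :=
        Nat.mul_le_mul_left _ (by unfold KK; omega)
      omega
    have h6 : 2 ^ (qq L * KK L + 2) ≤ 2 ^ RR L := Nat.pow_le_pow_right (by norm_num) h5
    have h7 : 2 ^ (qq L * KK L + 2) = 4 * 2 ^ (qq L * KK L) := by rw [pow_add]; ring
    have h8 : 2 ^ L ≤ 2 ^ (qq L * KK L) := Nat.pow_le_pow_right (by norm_num) (by
      have h4 : Th L * 1 ≤ qq L * KK L := Nat.mul_le_mul (by unfold qq; omega) (by unfold KK; omega)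
      have h5 := L_le_Th L
      omega)
    have h9 : 1 ≤ 2 ^ L := Nat.one_le_two_pow
    omega
  have h5 : (2 : ℤ) ^ L + 2 ^ (qq L * KK L) + 1 < N := by
    have : 2 ^ L + 2 ^ (qq L * KK L) + 1 < N := h4.trans_le hNR
    exact_mod_cast this
  have h6 : (v : ℤ) ≤ 2 ^ L := by exact_mod_cast hvT
  constructor
  · linarith
  · linarith

/-- the union of the exceptional sets -/
noncomputable def Exc' (L0 X : ℕ) : Finset ℕ :=
  ((Icc L0 X).filter fun L => 2 ^ (2 * RR L) ≤ X).biUnion fun L => Exc L X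

lemma geom (L0 M : ℕ) : ∑ L ∈ Icc L0 M, ((1 : ℝ) / 2) ^ L ≤ 2 * (1 / 2) ^ L0 := by
  rcases lt_or_ge M L0 with h | h
  · rw [Icc_eq_empty (by omega), sum_empty]; positivity
  · have : ∑ L ∈ Icc L0 M, ((1 : ℝ) / 2) ^ L = 2 * (1 / 2) ^ L0 - (1 / 2) ^ M := by
      induction M, h using Nat.le_induction with
      | base => simp; ring
      | succ M hM ih =>
        rw [sum_Icc_succ_top (by omega), ih, pow_succ]
        ring
    rw [this]
    have : (0 : ℝ) < (1 / 2) ^ M := by positivity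
    linarith

lemma card_Exc' {L0 X : ℕ} (hδ : ∀ L, L0 ≤ L → (BB L * BB L + 1) ^ 4 ≤ 2 ^ L) (hL0 : 6 ≤ L0) :
    ((Exc' L0 X).card : ℝ) ≤ 2 * X / 2 ^ L0 := by
  have h1 : ((Exc' L0 X).card : ℝ) ≤
      ∑ L ∈ (Icc L0 X).filter (fun L => 2 ^ (2 * RR L) ≤ X), ((Exc L X).card : ℝ) := by
    unfold Exc'
    exact_mod_cast card_biUnion_le
  refine h1.trans ?_
  have h2 : ∀ L ∈ (Icc L0 X).filter (fun L => 2 ^ (2 * RR L) ≤ X),
      ((Exc L X).card : ℝ) ≤ X * (1 / 2) ^ L := by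
    intro L hL
    rw [mem_filter, mem_Icc] at hL
    have h3 := card_exc (hδ L hL.1.1) (hL0.trans hL.1.1) hL.2
    have h4 : ((Exc L X).card : ℝ) * 2 ^ L ≤ X := by exact_mod_cast h3
    rw [one_div, inv_pow, ← div_eq_mul_inv, le_div_iff₀ (by positivity)]
    exact h4
  refine (sum_le_sum h2).trans ?_
  rw [← mul_sum]
  have h3 : ∑ L ∈ (Icc L0 X).filter (fun L => 2 ^ (2 * RR L) ≤ X), ((1 : ℝ) / 2) ^ L ≤
      ∑ L ∈ Icc L0 X, ((1 : ℝ) / 2) ^ L :=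
    sum_le_sum_of_subset_of_nonneg (filter_subset _ _) fun _ _ _ => by positivity
  calc (X : ℝ) * ∑ L ∈ (Icc L0 X).filter (fun L => 2 ^ (2 * RR L) ≤ X), ((1 : ℝ) / 2) ^ L
      ≤ X * (2 * (1 / 2) ^ L0) :=
        mul_le_mul_of_nonneg_left (h3.trans (geom L0 X)) (Nat.cast_nonneg X)
    _ = 2 * X / 2 ^ L0 := by rw [one_div, inv_pow]; ring

end Pool.Agent.K7.H91.GB
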