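import Pool.Agent.K7.H91.GB.Comb

set_option autoImplicit false

/-!
# The recursion as a descent; the sum of the divisor function
-/

namespace Pool.Agent.K7.H91.GB

open Finset

/-- the second argument of the gcd -/
def V (N n : ℕ) : ℤ := (N : ℤ) - (-1) ^ n * ((N : ℤ) - (n : ℤ))

lemma V_even (N : ℕ) {n : ℕ} (h : Even n) : V N n = n := by
  rw [V, h.neg_one_pow]; ring

lemma V_odd (N : ℕ) {n : ℕ} (h : Odd n) : V N n = 2 * N - n := by
  rw [V, h.neg_one_pow]; ring

/-- the gcds -/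
def gg (a : ℕ → ℤ) (N n : ℕ) : ℕ := Int.gcd (a (n - 1)) (V N n)

/-- the defects -/
def dd (a : ℕ → ℤ) (N n : ℕ) : ℕ := ∑ i ∈ Icc 2 n, (gg a N i - 1)

lemma gg_pos {a : ℕ → ℤ} {N n : ℕ} (hn : 1 ≤ n) (hnN : n < 2 * N) : 1 ≤ gg a N n := by
  unfold gg
  rw [Nat.one_le_iff_ne_zero]
  intro h
  rw [Int.gcd_eq_zero_iff] at h
  rcases Nat.even_or_odd n with h1 | h1
  · rw [V_even N h1] at h; omega
  · rw [V_odd N h1] at h; omega

lemma dd_succ (a : ℕ → ℤ) (N : ℕ) {n : ℕ} (hn : 1 ≤ n) :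
    dd a N (n + 1) = dd a N n + (gg a N (n + 1) - 1) := by
  unfold dd
  rw [sum_Icc_succ_top (by omega)]

lemma a_eq {a : ℕ → ℤ} {N T : ℕ} (hT : T < N) (ha1 : a 1 = (N : ℤ) - 2)
    (ha : ∀ n : ℕ, 2 ≤ n → a n = a (n - 1) -
      ((Int.gcd (a (n - 1)) ((N : ℤ) - (-1) ^ n * ((N : ℤ) - (n : ℤ))) : ℕ) : ℤ))
    (n : ℕ) (hn : 1 ≤ n) (hnT : n ≤ T) : a n = (N : ℤ) - 1 - n - dd a N n := by
  induction n, hn using Nat.le_induction with
  | base => rw [ha1]; simp [dd]; ring
  | succ n hn ih =>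
    have h1 := ih (by omega)
    have h2 := ha (n + 1) (by omega)
    have h3 : 1 ≤ gg a N (n + 1) := gg_pos (by omega) (by omega)
    rw [dd_succ a N hn]
    have h4 : ((Int.gcd (a (n + 1 - 1)) ((N : ℤ) - (-1) ^ (n + 1) * ((N : ℤ) - ((n + 1 : ℕ) : ℤ))) : ℕ) : ℤ)
        = (gg a N (n + 1) : ℤ) := rfl
    rw [h4, Nat.add_sub_cancel, h1] at h2
    rw [h2]
    push_cast [Nat.cast_sub h3]
    ring

theorem desc {a : ℕ → ℤ} {N T : ℕ} (hT : T < N) (ha1 : a 1 = (N : ℤ) - 2)
    (ha : ∀ n : ℕ, 2 ≤ n → a n = a (n - 1) -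
      ((Int.gcd (a (n - 1)) ((N : ℤ) - (-1) ^ n * ((N : ℤ) - (n : ℤ))) : ℕ) : ℤ)) :
    Desc N T (gg a N) (dd a N) where
  d1 := by simp [dd]
  pos := fun n _ _ => gg_pos (by omega) (by omega)
  step := fun n hn _ => dd_succ a N hn
  small := by
    intro n hn hnT
    have h1 := a_eq hT ha1 ha n hn hnT.le
    have h2 : ((gg a N (n + 1) : ℕ) : ℤ) ∣ a n := Int.gcd_dvd_left _ _
    have h3 : ((gg a N (n + 1) : ℕ) : ℤ) ∣ V N (n + 1) := Int.gcd_dvd_right _ _
    rcases Nat.even_or_odd (n + 1) with h | h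
    · left
      rw [V_even N h] at h3
      have h3' : gg a N (n + 1) ∣ n + 1 := by exact_mod_cast h3
      exact (Nat.le_of_dvd (Nat.succ_pos n) h3').trans (by omega)
    · right
      rw [V_odd N h] at h3
      have h4 : ((gg a N (n + 1) : ℕ) : ℤ) ∣ ((N + dd a N n : ℕ) : ℤ) := by
        have h7 := dvd_sub h3 h2
        have h8 : (2 * (N : ℤ) - ((n + 1 : ℕ) : ℤ)) - a n = ((N + dd a N n : ℕ) : ℤ) := by
          rw [h1]; push_cast; ring
        rwa [h8] at h7
      have h5 : ((gg a N (n + 1) : ℕ) : ℤ) ∣ (((n + 1) + 2 * dd a N n : ℕ) : ℤ) := by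
        have h7 := dvd_sub (Dvd.dvd.mul_left h4 2) h3
        have h8 : 2 * ((N + dd a N n : ℕ) : ℤ) - (2 * (N : ℤ) - ((n + 1 : ℕ) : ℤ)) =
            (((n + 1) + 2 * dd a N n : ℕ) : ℤ) := by
          push_cast; ring
        rwa [h8] at h7
      refine ⟨by exact_mod_cast h5, by exact_mod_cast h4, ?_⟩
      have h6 : ((gg a N (n + 1) : ℕ) : ℤ) ∣ ((2 * N - (n + 1) : ℕ) : ℤ) := by
        rw [Nat.cast_sub (by omega)]
        push_cast at h3 ⊢
        exact h3
      exact_mod_cast h6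

lemma two_pow_omega_le_tau {m : ℕ} (hm : m ≠ 0) : 2 ^ m.primeFactors.card ≤ m.divisors.card := by
  rw [Nat.card_divisors hm]
  calc 2 ^ m.primeFactors.card = ∏ _p ∈ m.primeFactors, 2 := by rw [prod_const]
    _ ≤ ∏ x ∈ m.primeFactors, (m.factorization x + 1) := by
        refine prod_le_prod' fun p hp => ?_
        have h1 : 1 ≤ m.factorization p :=
          (Nat.Prime.factorization_pos_of_dvd (Nat.prime_of_mem_primeFactors hp) hm
            (Nat.dvd_of_mem_primeFactors hp))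
        omega

/-- the number of the divisors of `m` below `R` -/
def tau (R m : ℕ) : ℕ := (m.divisors.filter fun e => e < R).card

lemma omega_le {m G w R : ℕ} (hm : m ≠ 0) (hG : G ∣ m) (hGR : G < R) (hτ : tau R m ≤ 2 ^ w) :
    G.primeFactors.card ≤ w := by
  have hG0 : G ≠ 0 := fun h => hm (by rw [h] at hG; exact zero_dvd_iff.1 hG)
  have h0 : G.divisors ⊆ m.divisors.filter fun e => e < R := by
    intro e he
    rw [mem_filter]
    exact ⟨Nat.divisors_subset_of_dvd hm hG he,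
      (Nat.divisor_le he).trans_lt hGR⟩
  have h1 := (two_pow_omega_le_tau hG0).trans ((card_le_card h0).trans hτ)
  exact (Nat.pow_le_pow_iff_right (by norm_num)).1 h1

/-- the sum of the number of the small divisors -/
lemma sum_tau (Y R b : ℕ) (hR : R ≤ 2 ^ b) : ∑ M ∈ Icc 1 Y, tau R M ≤ Y * (b + 1) := by
  have h1 : ∑ M ∈ Icc 1 Y, tau R M ≤ ∑ e ∈ Icc 1 R, Y / e := by
    have h2 : ∀ M ∈ Icc 1 Y, tau R M ≤ ∑ e ∈ Icc 1 R, if e ∣ M then 1 else 0 := by
      intro M hM
      rw [mem_Icc] at hM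
      rw [← card_filter]
      unfold tau
      apply card_le_card
      intro e he
      rw [mem_filter, Nat.mem_divisors] at he
      rw [mem_filter, mem_Icc]
      exact ⟨⟨Nat.pos_of_dvd_of_pos he.1.1 (by omega), he.2.le⟩, he.1.1⟩
    refine (sum_le_sum h2).trans ?_
    rw [sum_comm]
    refine sum_le_sum fun e he => ?_
    rw [← card_filter]
    have h3 := Nat.Ioc_filter_dvd_card_eq_div Y e
    rw [← h3]
    apply le_of_eq
    congr 1
  refine h1.trans ?_
  rcases Nat.eq_zero_or_pos R with h0 | h0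
  · subst h0; simp
  have h2 : ((∑ e ∈ Icc 1 R, Y / e : ℕ) : ℝ) ≤ (Y : ℝ) * (b + 1) := by
    push_cast
    calc ∑ e ∈ Icc 1 R, ((Y / e : ℕ) : ℝ) ≤ ∑ e ∈ Icc 1 R, (Y : ℝ) * (e : ℝ)⁻¹ := by
          refine sum_le_sum fun e _ => ?_
          rw [← div_eq_mul_inv]
          exact Nat.cast_div_le
      _ = (Y : ℝ) * ((harmonic R : ℚ) : ℝ) := by
          rw [← mul_sum, harmonic_eq_sum_Icc]
          push_cast
          rfl
      _ ≤ (Y : ℝ) * (b + 1) := by
          refine mul_le_mul_of_nonneg_left ?_ (Nat.cast_nonneg _)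
          have h3 := harmonic_le_one_add_log R
          have h4 : Real.log R ≤ b := by
            have h5 : (R : ℝ) ≤ 2 ^ b := by exact_mod_cast hR
            have h6 := Real.log_le_log (by exact_mod_cast h0) h5
            rw [Real.log_pow] at h6
            have h7 : Real.log 2 ≤ 1 := by
              have := Real.log_two_lt_d9; linarith
            nlinarith [Nat.cast_nonneg (α := ℝ) b]
          linarith
  exact_mod_cast h2

/-- the number of the `M ≤ Y` with more than `W` small divisors -/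
lemma card_tau (Y R b W : ℕ) (hR : R ≤ 2 ^ b) :
    ((Icc 1 Y).filter fun M => W < tau R M).card * W ≤ Y * (b + 1) := by
  refine le_trans ?_ (sum_tau Y R b hR)
  rw [← smul_eq_mul, ← sum_const]
  refine (sum_le_sum (g := fun M => tau R M) ?_).trans
    (sum_le_sum_of_subset (filter_subset _ _))
  intro M hM
  exact (mem_filter.1 hM).2.le

end Pool.Agent.K7.H91.GB
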