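import Pool.Agent.K7.H91.GB.Codes

set_option autoImplicit false

/-!
# The union bound over the codes
-/

namespace Pool.Agent.K7.H91.GB

open Finset

/-- the number of the times `n`, `s < n ≤ t`, with `2 ^ (q k) ≤ g n` -/
def cnt (g : ℕ → ℕ) (q k s t : ℕ) : ℕ := ((Ioc s t).filter fun n => 2 ^ (q * k) ≤ g n).card

lemma cnt_self (g : ℕ → ℕ) (q k s : ℕ) : cnt g q k s s = 0 := by simp [cnt]

lemma cnt_succ (g : ℕ → ℕ) (q k s i : ℕ) :
    cnt g q k s (s + i + 1) = cnt g q k s (s + i) + (if 2 ^ (q * k) ≤ g (s + i + 1) then 1 else 0) := by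
  unfold cnt
  have h : Ioc s (s + i + 1) = insert (s + i + 1) (Ioc s (s + i)) := by
    ext x; simp only [mem_Ioc, mem_insert]; omega
  rw [h, filter_insert]
  split_ifs with h1
  · rw [card_insert_of_notMem]
    simp
  · simp

lemma run_length (g d : ℕ → ℕ) (q k s i : ℕ) :
    (run g d (2 ^ (q * k)) s i).length = cnt g q k s (s + i) := by
  induction i with
  | zero => simp [run, cnt]
  | succ i ih =>
    rw [show s + (i + 1) = s + i + 1 by omega, cnt_succ]
    by_cases hZ : 2 ^ (q * k) ≤ g (s + i + 1)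
    · rw [run_succ_pos hZ, if_pos hZ, List.length_cons, ih]
    · rw [run_succ_neg hZ, if_neg hZ, ih, add_zero]

lemma lev (q k K G : ℕ) (hG : 2 ^ (q * k) ≤ G) :
    2 ^ (q * (k + ((Ioc k K).filter fun m => 2 ^ (q * m) ≤ G).card)) ≤ G := by
  set S := (Ioc k K).filter fun m => 2 ^ (q * m) ≤ G with hS
  rcases S.eq_empty_or_nonempty with h | h
  · rw [h, card_empty, add_zero]; exact hG
  · obtain ⟨M, hM, hmax⟩ := S.exists_max_image id h
    simp only [id] at hmax
    have hM2 := hM
    rw [hS, mem_filter, mem_Ioc] at hM2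
    have h1 : S ⊆ Ioc k M := by
      intro m hm
      have := hmax m hm
      rw [hS, mem_filter, mem_Ioc] at hm
      rw [mem_Ioc]
      exact ⟨hm.1.1, this⟩
    have h2 : S.card ≤ M - k := by
      have := card_le_card h1
      rwa [Nat.card_Ioc] at this
    refine le_trans (Nat.pow_le_pow_right (by norm_num) ?_) hM2.2
    exact Nat.mul_le_mul_left _ (by omega)

lemma prod_run (g d : ℕ → ℕ) (q k K s i : ℕ) :
    2 ^ (q * (k * cnt g q k s (s + i) + ∑ m ∈ Ioc k K, cnt g q m s (s + i))) ≤
      ((run g d (2 ^ (q * k)) s i).map (fun j => j.2.2)).prod := by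
  induction i with
  | zero => simp [run, cnt_self]
  | succ i ih =>
    rw [show s + (i + 1) = s + i + 1 by omega]
    have hsum : ∑ m ∈ Ioc k K, cnt g q m s (s + i + 1) = (∑ m ∈ Ioc k K, cnt g q m s (s + i)) +
        ((Ioc k K).filter fun m => 2 ^ (q * m) ≤ g (s + i + 1)).card := by
      rw [card_filter, ← sum_add_distrib]
      exact sum_congr rfl fun m _ => cnt_succ g q m s i
    by_cases hZ : 2 ^ (q * k) ≤ g (s + i + 1)
    · rw [run_succ_pos hZ, hsum, cnt_succ, if_pos hZ, List.map_cons, List.prod_cons]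
      have h1 := lev q k K _ hZ
      calc _ = 2 ^ (q * (k + ((Ioc k K).filter fun m => 2 ^ (q * m) ≤ g (s + i + 1)).card)) *
            2 ^ (q * (k * cnt g q k s (s + i) + ∑ m ∈ Ioc k K, cnt g q m s (s + i))) := by
            rw [← pow_add]; congr 1; ring
        _ ≤ _ := Nat.mul_le_mul h1 ih
    · rw [run_succ_neg hZ, hsum, cnt_succ, if_neg hZ, add_zero]
      have h0 : ((Ioc k K).filter fun m => 2 ^ (q * m) ≤ g (s + i + 1)) = ∅ := by
        rw [filter_eq_empty_iff]
        intro m hm h2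
        rw [mem_Ioc] at hm
        apply hZ
        exact (Nat.pow_le_pow_right (by norm_num) (Nat.mul_le_mul_left _ hm.1.le)).trans h2
      rw [h0, card_empty, add_zero]
      exact ih

/-- the numbers `N ≤ X` which are compatible with a code whose gcds have a large product -/
noncomputable def bad (T Dm E w X J P : ℕ) : Finset ℕ := by
  classical
  exact (range (X + 1)).filter fun N => ∃ c ∈ codes T Dm E w J,
    (∀ j ∈ c, 0 < j.2.2 ∧ j.2.2 ∣ N + j.2.1) ∧
    (c.map (fun j => j.2.2)).Pairwise (fun x y => Nat.gcd x y ≤ T) ∧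
    P ≤ (c.map (fun j => j.2.2)).prod

lemma card_bad {T Dm E w X J P : ℕ} (hT : 1 ≤ T) (hP : 0 < P) :
    (bad T Dm E w X J P).card ≤ (codes T Dm E w J).card * (X * T ^ (J * J) / P + 1) := by
  classical
  set f : List (ℕ × ℕ × ℕ) → Finset ℕ := fun c =>
    if (∀ j ∈ c, 0 < j.2.2) ∧ (c.map (fun j => j.2.2)).Pairwise (fun x y => Nat.gcd x y ≤ T) ∧
      P ≤ (c.map (fun j => j.2.2)).prod then
      (range (X + 1)).filter fun N => ∀ j ∈ c, j.2.2 ∣ N + j.2.1 else ∅ with hf
  have hsub : bad T Dm E w X J P ⊆ (codes T Dm E w J).biUnion f := by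
    intro N hN
    unfold bad at hN
    rw [mem_filter] at hN
    obtain ⟨hNX, c, hc, h1, h2, h3⟩ := hN
    rw [mem_biUnion]
    refine ⟨c, hc, ?_⟩
    rw [hf]
    simp only
    rw [if_pos ⟨fun j hj => (h1 j hj).1, h2, h3⟩, mem_filter]
    exact ⟨hNX, fun j hj => (h1 j hj).2⟩
  refine (card_le_card hsub).trans (card_biUnion_le.trans ?_)
  rw [← smul_eq_mul, ← sum_const]
  refine sum_le_sum fun c hc => ?_
  rw [hf]
  simp only
  split_ifs with h
  · obtain ⟨h1, h2, h3⟩ := h
    have hlen := length_of_mem_codes hc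
    set l := c.map (fun j => j.2.2) with hl
    have hlpos : ∀ y ∈ l, 0 < y := by
      intro y hy
      rw [hl, List.mem_map] at hy
      obtain ⟨j, hj, rfl⟩ := hy
      exact h1 j hj
    have hM := lcmL_pos hlpos
    have h4 := prod_le_lcmL hT hlpos h2
    have hll : l.length = J := by rw [hl, List.length_map, hlen]
    rw [hll] at h4
    refine (card_le_of_modEq (M := lcmL l) (X := X) _ ?_ ?_).trans ?_
    · intro a ha
      rw [mem_filter, mem_range] at ha
      omega
    · intro a ha b hb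
      rw [mem_filter] at ha hb
      rw [Nat.modEq_iff_dvd]
      have h5 : lcmL l ∣ ((b : ℤ) - a).natAbs := by
        apply lcmL_dvd
        intro y hy
        rw [hl, List.mem_map] at hy
        obtain ⟨j, hj, rfl⟩ := hy
        have h6 := Int.natCast_dvd_natCast.2 (ha.2 j hj)
        have h7 := Int.natCast_dvd_natCast.2 (hb.2 j hj)
        have h8 := dvd_sub h7 h6
        push_cast at h8
        rw [add_sub_add_right_eq_sub] at h8
        exact Int.natCast_dvd.1 h8
      exact Int.natCast_dvd.2 h5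
    · refine Nat.succ_le_succ ?_
      rw [Nat.le_div_iff_mul_le hP]
      calc X / lcmL l * P ≤ X / lcmL l * (lcmL l * T ^ (J * J)) := Nat.mul_le_mul_left _ (h3.trans h4)
        _ = (X / lcmL l * lcmL l) * T ^ (J * J) := by ring
        _ ≤ X * T ^ (J * J) := Nat.mul_le_mul_right _ (Nat.div_mul_le_self _ _)
  · simp

/-- runs outside the bad sets have a small product of gcds -/
lemma typical {N T X : ℕ} {g d : ℕ → ℕ} (hD : Desc N T g d) (hNX : N ≤ X) (hTN : T < N)
    {q k K Dm E w s i P : ℕ} (hs : 1 ≤ s) (hTZ : T < 2 ^ (q * k)) (hE : T * 2 ^ (q * k) ≤ E)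
    (hi : s + i ≤ T)
    (hom : ∀ n, s ≤ n → n < s + i → T < g (n + 1) → (g (n + 1)).primeFactors.card ≤ w)
    (hDm : ∀ n, s ≤ n → n < s + i → d n < Dm)
    (hbad : N ∉ bad T Dm E w X (cnt g q k s (s + i)) P) :
    2 ^ (q * (k * cnt g q k s (s + i) + ∑ m ∈ Ioc k K, cnt g q m s (s + i))) < P := by
  classical
  by_contra hcon
  push Not at hcon
  apply hbad
  unfold bad
  rw [mem_filter, mem_range]
  refine ⟨by omega, run g d (2 ^ (q * k)) s i, ?_, ?_, run_pairwise hD hs hTZ hTN i hi,
    hcon.trans (prod_run g d q k K s i)⟩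
  · have := (run_mem_codes hD hs hTZ hE i hi hom hDm).1
    rwa [run_length] at this
  · intro j hj
    obtain ⟨r, hr, rfl, hZ⟩ := mem_run hj
    refine ⟨by show 0 < g (s + r + 1); omega, ?_⟩
    show g (s + r + 1) ∣ N + d (s + r)
    rcases hD.small (s + r) (by omega) (by omega) with h | h
    · omega
    · exact h.2.1

end Pool.Agent.K7.H91.GB
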